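import Mathlib

set_option autoImplicit false

/-!
# Two consecutive integers with large new radical

For given `R` and `W` there is `m` in `(W, 2W]` such that the product of the primes which divide
`m (m + 1)` and do not divide `R` is at least `W ^ 2 R ^ (-ε)` up to a constant depending only on `ε`.
-/

namespace Pool.Agent.H584.NT

open Finset ArithmeticFunction

/-- the von Mangoldt function without the primes which do not divide `R` -/
noncomputable def L' (R d : ℕ) : ℝ := if d.Prime ∧ ¬ d ∣ R then 0 else vonMangoldt d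

lemma L'_nonneg (R d : ℕ) : 0 ≤ L' R d := by
  unfold L'; split_ifs
  · exact le_rfl
  · exact vonMangoldt_nonneg

/-- the loss -/
noncomputable def G (R n : ℕ) : ℝ := ∑ d ∈ n.divisors, L' R d

lemma G_nonneg (R n : ℕ) : 0 ≤ G R n := sum_nonneg fun _ _ => L'_nonneg _ _

/-- the logarithm of the product of the primes dividing `n` and not `R` -/
noncomputable def newlog (R n : ℕ) : ℝ := ∑ p ∈ n.primeFactors.filter (fun p => ¬ p ∣ R), Real.log p

lemma newlog_eq (R n : ℕ) : newlog R n = Real.log n - G R n := by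
  have h1 : Real.log n = ∑ d ∈ n.divisors, vonMangoldt d := vonMangoldt_sum.symm
  rw [h1, G, ← sum_sub_distrib, newlog, Nat.primeFactors_eq_to_filter_divisors_prime, filter_filter,
    sum_filter]
  refine sum_congr rfl fun d _ => ?_
  unfold L'
  split_ifs with h
  · rw [vonMangoldt_apply_prime h.1, sub_zero]
  · rw [sub_self]

lemma G_dvd (R : ℕ) {d n : ℕ} (hn : n ≠ 0) (hd : d ∣ n) (hR : ∀ p : ℕ, p.Prime → p ∣ d → p ∣ R) :
    Real.log d ≤ G R n := by
  have h1 : Real.log d = ∑ e ∈ d.divisors, vonMangoldt e := vonMangoldt_sum.symm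
  rw [h1, G]
  calc ∑ e ∈ d.divisors, vonMangoldt e = ∑ e ∈ d.divisors, L' R e := by
        refine sum_congr rfl fun e he => ?_
        unfold L'
        rw [if_neg]
        rintro ⟨h2, h3⟩
        exact h3 (hR e h2 (Nat.dvd_of_mem_divisors he))
    _ ≤ _ := sum_le_sum_of_subset_of_nonneg (Nat.divisors_subset_of_dvd hn hd)
        fun _ _ _ => L'_nonneg _ _

/-- the constant -/
noncomputable def C0 : ℝ := ∑' n : ℕ, (if n.Prime then 0 else vonMangoldt n) / n

lemma summable_C0 : Summable fun n : ℕ => (if n.Prime then 0 else vonMangoldt n) / (n : ℝ) := by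
  have h := vonMangoldt.summable_residueClass_non_primes_div (q := 1) 0
  refine h.congr fun n => ?_
  congr 1
  split_ifs
  · rfl
  · unfold vonMangoldt.residueClass
    rw [Set.indicator_of_mem]
    show (n : ZMod 1) = 0
    exact Subsingleton.elim _ _

lemma C0_nonneg : 0 ≤ C0 := tsum_nonneg fun n => by
  have := @vonMangoldt_nonneg n
  split_ifs <;> positivity

/-- `∑_{p ∣ R} log p / p` -/
noncomputable def S (R : ℕ) : ℝ := ∑ p ∈ R.primeFactors, Real.log p / p

lemma S_nonneg (R : ℕ) : 0 ≤ S R := sum_nonneg fun p _ => by positivity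

lemma sum_L' {R : ℕ} (hR : R ≠ 0) (N : ℕ) : ∑ d ∈ Icc 1 N, L' R d / d ≤ C0 + S R := by
  have h1 : ∀ d ∈ Icc 1 N, L' R d / d ≤ (if d.Prime then 0 else vonMangoldt d) / (d : ℝ) +
      (if d ∈ R.primeFactors then Real.log d / d else 0) := by
    intro d _
    unfold L'
    by_cases h1 : d.Prime
    · by_cases h2 : d ∣ R
      · rw [if_neg (by tauto), if_pos h1, if_pos (Nat.mem_primeFactors.2 ⟨h1, h2, hR⟩),
          vonMangoldt_apply_prime h1]
        simp
      · rw [if_pos ⟨h1, h2⟩, if_pos h1, if_neg (fun h => h2 (Nat.mem_primeFactors.1 h).2.1)]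
        simp
    · rw [if_neg (by tauto), if_neg h1, if_neg (fun h => h1 (Nat.mem_primeFactors.1 h).1)]
      simp
  refine (sum_le_sum h1).trans ?_
  rw [sum_add_distrib]
  refine add_le_add ?_ ?_
  · exact Summable.sum_le_tsum _ (fun d _ => by
      have := @vonMangoldt_nonneg d
      split_ifs <;> positivity) summable_C0
  · rw [← sum_filter]
    refine sum_le_sum_of_subset_of_nonneg (fun d hd => (mem_filter.1 hd).2) fun d _ _ => by
      positivity

lemma card_mult (A W d : ℕ) :
    (((Ioc A (A + W)).filter (fun n => d ∣ n)).card : ℝ) ≤ (W : ℝ) / d + 1 := by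
  rcases Nat.eq_zero_or_pos d with rfl | hd
  · have : (Ioc A (A + W)).filter (fun n => 0 ∣ n) = ∅ := by
      rw [filter_eq_empty_iff]
      intro n hn h
      rw [zero_dvd_iff] at h
      rw [mem_Ioc] at hn
      omega
    rw [this]; simp
  have h1 : ((Ioc A (A + W)).filter (fun n => d ∣ n)).card = (A + W) / d - A / d := by
    have h2 := Nat.Ioc_filter_dvd_card_eq_div (A + W) d
    have h3 := Nat.Ioc_filter_dvd_card_eq_div A d
    have h4 : (Ioc 0 (A + W)).filter (fun n => d ∣ n) =
        (Ioc 0 A).filter (fun n => d ∣ n) ∪ (Ioc A (A + W)).filter (fun n => d ∣ n) := by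
      rw [← filter_union, Ioc_union_Ioc_eq_Ioc (Nat.zero_le _) (by omega)]
    have h5 : Disjoint ((Ioc 0 A).filter (fun n => d ∣ n))
        ((Ioc A (A + W)).filter (fun n => d ∣ n)) := by
      refine disjoint_filter_filter ?_
      rw [disjoint_left]
      intro n h6 h7
      rw [mem_Ioc] at h6 h7
      omega
    have h6 := card_union_of_disjoint h5
    rw [← h4, h2, h3] at h6
    omega
  rw [h1]
  have h2 : ((A + W) / d - A / d : ℕ) ≤ W / d + 1 := by
    have h3 : (A + W) / d ≤ A / d + W / d + 1 := by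
      rw [Nat.add_div hd]
      split_ifs
      · exact le_rfl
      · exact Nat.le_succ _
    rw [Nat.sub_le_iff_le_add]
    calc _ ≤ _ := h3
      _ = _ := by ring
  calc (((A + W) / d - A / d : ℕ) : ℝ) ≤ ((W / d + 1 : ℕ) : ℝ) := by exact_mod_cast h2
    _ ≤ (W : ℝ) / d + 1 := by
        push_cast
        have := @Nat.cast_div_le ℝ _ _ _ W d
        linarith

lemma sum_G {R : ℕ} (hR : R ≠ 0) {A W : ℕ} (hW : 0 < W) (hA : A ≤ W + 1) :
    ∑ n ∈ Ioc A (A + W), G R n ≤ 4 * W * (C0 + S R) := by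
  have h1 : ∑ n ∈ Ioc A (A + W), G R n =
      ∑ d ∈ Icc 1 (A + W), L' R d * ((Ioc A (A + W)).filter (fun n => d ∣ n)).card := by
    have h2 : ∀ n ∈ Ioc A (A + W), G R n = ∑ d ∈ Icc 1 (A + W), if d ∣ n then L' R d else 0 := by
      intro n hn
      rw [mem_Ioc] at hn
      unfold G
      rw [← sum_filter]
      refine sum_congr ?_ fun _ _ => rfl
      ext d
      rw [Nat.mem_divisors, mem_filter, mem_Icc]
      constructor
      · rintro ⟨h3, h4⟩
        exact ⟨⟨Nat.pos_of_dvd_of_pos h3 (by omega), (Nat.le_of_dvd (by omega) h3).trans hn.2⟩, h3⟩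
      · rintro ⟨-, h3⟩
        exact ⟨h3, by omega⟩
    rw [sum_congr rfl h2, sum_comm]
    refine sum_congr rfl fun d _ => ?_
    rw [← sum_filter, sum_const, nsmul_eq_mul, mul_comm]
  rw [h1]
  calc ∑ d ∈ Icc 1 (A + W), L' R d * ((Ioc A (A + W)).filter (fun n => d ∣ n)).card
      ≤ ∑ d ∈ Icc 1 (A + W), 4 * W * (L' R d / d) := by
        refine sum_le_sum fun d hd => ?_
        rw [mem_Icc] at hd
        have hd0 : (0 : ℝ) < d := by exact_mod_cast hd.1
        have h2 := card_mult A W d
        have h3 : (1 : ℝ) ≤ 3 * W / d := by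
          rw [le_div_iff₀ hd0, one_mul]
          have : d ≤ 3 * W := by omega
          exact_mod_cast this
        have h4 : (((Ioc A (A + W)).filter (fun n => d ∣ n)).card : ℝ) ≤ 4 * W / d := by
          have : (4 : ℝ) * W / d = W / d + 3 * W / d := by ring
          linarith
        calc _ ≤ L' R d * (4 * W / d) := mul_le_mul_of_nonneg_left h4 (L'_nonneg _ _)
          _ = _ := by ring
    _ = 4 * W * ∑ d ∈ Icc 1 (A + W), L' R d / d := by rw [mul_sum]
    _ ≤ _ := by
        refine mul_le_mul_of_nonneg_left (sum_L' hR _) (by positivity)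

lemma S_le {ε : ℝ} (hε : 0 < ε) : ∃ C : ℝ, 0 ≤ C ∧ ∀ R : ℕ, R ≠ 0 →
    S R ≤ C + ε * ∑ p ∈ R.primeFactors, Real.log p := by
  obtain ⟨z, hz⟩ := exists_nat_gt (1 / ε)
  have hz0 : (0 : ℝ) < z := lt_trans (by positivity) hz
  refine ⟨∑ p ∈ range (z + 1), Real.log p, sum_nonneg fun p _ => Real.log_natCast_nonneg _,
    fun R _ => ?_⟩
  unfold S
  rw [mul_sum]
  have h1 : ∀ p ∈ R.primeFactors, Real.log p / p ≤
      (if p ∈ range (z + 1) then Real.log p else 0) + ε * Real.log p := by
    intro p hp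
    have hp1 : (1 : ℝ) ≤ p := by
      exact_mod_cast (Nat.prime_of_mem_primeFactors hp).one_lt.le
    have hl := Real.log_nonneg hp1
    split_ifs with h
    · have : Real.log p / p ≤ Real.log p := div_le_self hl hp1
      have := mul_nonneg hε.le hl
      linarith
    · rw [mem_range, not_lt] at h
      have h2 : (z : ℝ) ≤ p := by exact_mod_cast (by omega : z ≤ p)
      rw [zero_add, div_le_iff₀ (by linarith)]
      have h3 : 1 ≤ ε * p := by
        have h4 : 1 < z * ε := by rwa [div_lt_iff₀ hε] at hz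
        nlinarith
      nlinarith
  refine (sum_le_sum h1).trans ?_
  rw [sum_add_distrib, ← sum_filter]
  have h2 : ∑ p ∈ R.primeFactors.filter (fun p => p ∈ range (z + 1)), Real.log (p : ℝ) ≤
      ∑ p ∈ range (z + 1), Real.log (p : ℝ) :=
    sum_le_sum_of_subset_of_nonneg (fun p hp => (mem_filter.1 hp).2)
      fun p _ _ => Real.log_natCast_nonneg _
  linarith

/-- **Two consecutive integers with small loss.** -/
theorem exists_pair {ε : ℝ} (hε : 0 < ε) : ∃ C : ℝ, 0 ≤ C ∧ ∀ R : ℕ, R ≠ 0 → ∀ W : ℕ, 0 < W →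
    ∃ m : ℕ, W < m ∧ m ≤ 2 * W ∧
      G R m + G R (m + 1) ≤ C + ε * ∑ p ∈ R.primeFactors, Real.log p := by
  obtain ⟨C, hC0, hC⟩ := S_le (show 0 < ε / 8 by positivity)
  refine ⟨8 * (C0 + C), by have := C0_nonneg; positivity, fun R hR W hW => ?_⟩
  by_contra hcon
  push Not at hcon
  have h1 := sum_G hR (A := W) hW (by omega)
  have h2 := sum_G hR (A := W + 1) hW le_rfl
  have h3 : ∑ n ∈ Ioc (W + 1) (W + 1 + W), G R n = ∑ m ∈ Ioc W (W + W), G R (m + 1) := by
    rw [show W + 1 + W = W + W + 1 by ring, ← Finset.sum_image (f := fun n => G R n)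
      (g := fun m => m + 1) (by intro a _ b _ h; simpa using h)]
    refine sum_congr ?_ fun _ _ => rfl
    ext n
    rw [mem_image]
    simp only [mem_Ioc]
    constructor
    · rintro ⟨h4, h5⟩
      exact ⟨n - 1, ⟨by omega, by omega⟩, by omega⟩
    · rintro ⟨m, ⟨h4, h5⟩, rfl⟩
      exact ⟨by omega, by omega⟩
  rw [h3] at h2
  have h4 : ∑ m ∈ Ioc W (W + W), (8 * (C0 + S R)) < ∑ m ∈ Ioc W (W + W), (G R m + G R (m + 1)) := by
    refine sum_lt_sum_of_nonempty ⟨W + 1, by rw [mem_Ioc]; omega⟩ fun m hm => ?_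
    rw [mem_Ioc] at hm
    have h5 := hcon m hm.1 (by omega)
    have h6 := hC R hR
    nlinarith
  rw [sum_const, nsmul_eq_mul, Nat.card_Ioc, sum_add_distrib] at h4
  have h5 : ((W + W - W : ℕ) : ℝ) = W := by
    have : W + W - W = W := by omega
    rw [this]
  rw [h5] at h4
  nlinarith

end Pool.Agent.H584.NT
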