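import Pool.Agent.H584.NT.Spec
import Pool.Graph.R_pool_sql_team_seeded_64922ed1.Results.MP_2ec8a3_nt.JointLimitPoints

set_option autoImplicit false

/-!
# The identity of Browkin and Brzezinski for abc triples with prescribed radicals
-/

namespace Pool.Agent.H584.NT

open Finset Pool.Agent.Q39.NT

/-- the radical -/
def rad1 (m : ℕ) : ℕ := ∏ p ∈ m.primeFactors, p

lemma rad1_pos (m : ℕ) : 0 < rad1 m := prod_pos fun _ hp => (Nat.prime_of_mem_primeFactors hp).pos

lemma rad1_mul {a b : ℕ} (h : Nat.Coprime a b) : rad1 (a * b) = rad1 a * rad1 b := by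
  unfold rad1
  rw [Nat.Coprime.primeFactors_mul h, prod_union h.disjoint_primeFactors]

lemma tup_rd_ge (k a b : ℕ) (hA : Adm (tup k a b)) :
    rad1 (a * b * (a + b)) ≤ rd (tup k a b) := by
  unfold rad1 rd
  apply Finset.prod_le_prod_of_subset_of_one_le'
  · intro p hp
    rw [Nat.mem_primeFactors] at hp ⊢
    have hne : (∏ i, tup k a b i).natAbs ≠ 0 := by
      rw [Int.natAbs_ne_zero]
      exact prod_ne_zero_iff.2 fun i _ => hA.ne_zero (by omega) i
    have hdv : ∀ i, (p : ℤ) ∣ tup k a b i → p ∣ (∏ i, tup k a b i).natAbs := fun i h =>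
      Int.natCast_dvd.1 (h.trans (dvd_prod_of_mem _ (mem_univ i)))
    refine ⟨hp.1, ?_, hne⟩
    rcases (Nat.Prime.dvd_mul hp.1).1 hp.2.1 with h | h
    · rcases (Nat.Prime.dvd_mul hp.1).1 h with h | h
      · apply hdv 0
        simp only [tup, Fin.cons_zero]
        have : (p : ℤ) ∣ (a : ℤ) := by exact_mod_cast h
        exact dvd_pow this (by omega)
      · apply hdv (Fin.succ 0)
        simp only [tup, Fin.cons_succ, Fin.cons_zero]
        have : (p : ℤ) ∣ (b : ℤ) := by exact_mod_cast h
        exact dvd_pow this (by omega)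
    · apply hdv (Fin.succ (Fin.succ 0))
      rw [tup_two]
      have : (p : ℤ) ∣ (a : ℤ) + b := by exact_mod_cast h
      exact (dvd_neg).2 (dvd_pow this (by omega))
  · intro p hp _
    exact (Nat.prime_of_mem_primeFactors hp).one_lt.le

lemma tup_sz_ge (k a b : ℕ) : (a + b) ^ (2 * k + 1) ≤ sz (tup k a b) := by
  have h := le_sz (tup k a b) (Fin.succ (Fin.succ 0))
  rw [tup_two, Int.natAbs_neg, Int.natAbs_pow] at h
  have h2 : ((a : ℤ) + b).natAbs = a + b := by
    have : ((a : ℤ) + b) = ((a + b : ℕ) : ℤ) := by push_cast; ring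
    rw [this, Int.natAbs_natCast]
  rwa [h2] at h

lemma tup_sz_le (k a b : ℕ) : sz (tup k a b) ≤ E k * (a + b) ^ (2 * k + 1) := by
  have hE : 1 ≤ E k := Nat.pos_of_ne_zero (E_ne k)
  have h2 : ((a : ℤ) + b).natAbs = a + b := by
    have : ((a : ℤ) + b) = ((a + b : ℕ) : ℤ) := by push_cast; ring
    rw [this, Int.natAbs_natCast]
  refine Finset.sup_le fun i _ => ?_
  refine Fin.cases ?_ (fun i => Fin.cases ?_ (fun j => ?_) i) i
  · simp only [tup, Fin.cons_zero]
    rw [Int.natAbs_pow, Int.natAbs_natCast]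
    calc a ^ (2 * k + 1) ≤ (a + b) ^ (2 * k + 1) := Nat.pow_le_pow_left (by omega) _
      _ ≤ _ := Nat.le_mul_of_pos_left _ hE
  · simp only [tup, Fin.cons_succ, Fin.cons_zero]
    rw [Int.natAbs_pow, Int.natAbs_natCast]
    calc b ^ (2 * k + 1) ≤ (a + b) ^ (2 * k + 1) := Nat.pow_le_pow_left (by omega) _
      _ ≤ _ := Nat.le_mul_of_pos_left _ hE
  · simp only [tup, Fin.cons_succ]
    rw [Int.natAbs_neg, Int.natAbs_mul, Int.natAbs_mul, Int.natAbs_mul, Int.natAbs_pow,
      Int.natAbs_pow, Int.natAbs_pow, Int.natAbs_mul, h2, Int.natAbs_natCast, Int.natAbs_natCast,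
      Int.natAbs_natCast, Int.natAbs_neg, Int.natAbs_one, one_pow, one_mul]
    have h3 : w (2 * k + 1) j ≤ E k := by
      refine Nat.le_of_dvd hE (dvd_prod_of_mem _ (mem_range.2 j.2))
    have h4 : (a * b) ^ (j : ℕ) * (a + b) ^ (2 * k + 1 - 2 * (j : ℕ)) ≤ (a + b) ^ (2 * k + 1) := by
      calc (a * b) ^ (j : ℕ) * (a + b) ^ (2 * k + 1 - 2 * (j : ℕ))
          ≤ ((a + b) ^ 2) ^ (j : ℕ) * (a + b) ^ (2 * k + 1 - 2 * (j : ℕ)) := by
            apply Nat.mul_le_mul_right
            apply Nat.pow_le_pow_left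
            nlinarith
        _ = (a + b) ^ (2 * k + 1) := by
            rw [← pow_mul, ← pow_add]
            congr 1
            have := j.2
            omega
    rw [mul_assoc]
    exact Nat.mul_le_mul h3 h4

theorem top (k : ℕ) (lam : ℝ) (h1 : ((2 * k + 1 : ℕ) : ℝ) / 3 ≤ lam)
    (h2 : lam ≤ 5 / 6 * ((2 * k + 1 : ℕ) : ℝ)) : IsLim (k + 3) lam := by
  set m : ℕ := 2 * k + 1 with hm
  have hm1 : (1 : ℝ) ≤ m := by
    have : 1 ≤ m := by omega
    exact_mod_cast this
  have hm0 : (0 : ℝ) < m := by linarith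
  have hl0 : 0 < lam := lt_of_lt_of_le (by positivity) h1
  refine isLim_of (by omega) fun ε hε N => ?_
  set al : ℝ := m / (3 * lam) with hal
  have hal1 : al ≤ 1 := by rw [hal, div_le_one (by positivity)]; linarith
  have hal2 : 2 / 5 ≤ al := by rw [hal, le_div_iff₀ (by positivity)]; linarith
  have hal3 : lam * (3 * al) = m := by rw [hal]; field_simp
  obtain ⟨e, he0, he1, he2⟩ : ∃ e : ℝ, 0 < e ∧ e ≤ 1 / 10 ∧ lam * (3 * e) ≤ ε / 4 := by
    refine ⟨min (1 / 10) (ε / (12 * lam)), lt_min (by norm_num) (by positivity), min_le_left _ _, ?_⟩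
    calc lam * (3 * min (1 / 10) (ε / (12 * lam))) ≤ lam * (3 * (ε / (12 * lam))) := by
          gcongr
          exact min_le_right _ _
      _ = ε / 4 := by field_simp; ring
  obtain ⟨B, hB⟩ := tup_adm k
  set K : ℝ := Real.log (E k) + lam * (Real.log (E k) + 2 * Real.log 4) with hK
  have hE1 : (1 : ℝ) ≤ E k := by exact_mod_cast Nat.pos_of_ne_zero (E_ne k)
  have hlE : 0 ≤ Real.log (E k : ℝ) := Real.log_nonneg hE1
  have hl4 : 0 < Real.log 4 := Real.log_pos (by norm_num)
  have hK0 : 0 ≤ K := by positivity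
  set N1 : ℝ := max (max N 0) (max (4 * Real.log 4) (4 * K / ε)) with hN1
  obtain ⟨N2, hN2⟩ := exists_nat_gt (Real.exp N1)
  obtain ⟨a, b, c, hab, habc, hNa, hNb, -, -, ra, rb, rc, hac⟩ :=
    Pool.Agent.Results.MP_2ec8a3_nt.JointLimitPoints.result.2 al al al (by linarith) hal1
      (by linarith) hal1 (by linarith) hal1 (by rw [max_self, max_self]; linarith) (1 / 2)
      (by norm_num) (by norm_num) 1 0 0 one_pos (by simp) e he0 (max B N2)
  have ha0 : 0 < a := by omega
  have hb0 : 0 < b := by omega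
  have hc0 : 0 < c := by omega
  have ha0' : (0 : ℝ) < a := by exact_mod_cast ha0
  have hb0' : (0 : ℝ) < b := by exact_mod_cast hb0
  have hc0' : (0 : ℝ) < c := by exact_mod_cast hc0
  have hNa2 : N2 < a := lt_of_le_of_lt (le_max_right _ _) hNa
  have hNb2 : N2 < b := lt_of_le_of_lt (le_max_right _ _) hNb
  have hBa : B < a := lt_of_le_of_lt (le_max_left _ _) hNa
  have hA : Adm (tup k a b) := hB a b ha0 hb0 hab (by omega)
  have hla : N1 < Real.log a := by
    rw [Real.lt_log_iff_exp_lt ha0']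
    exact hN2.trans (by exact_mod_cast hNa2)
  have hlb : N1 < Real.log b := by
    rw [Real.lt_log_iff_exp_lt hb0']
    exact hN2.trans (by exact_mod_cast hNb2)
  have hlac : Real.log a ≤ Real.log c := Real.log_le_log ha0' (by
    exact_mod_cast (by omega : a ≤ c))
  have hlbc : Real.log b ≤ Real.log c := Real.log_le_log hb0' (by
    exact_mod_cast (by omega : b ≤ c))
  have hN10 : 0 ≤ N1 := (le_max_right N 0).trans (le_max_left _ _)
  have hla0 : 0 < Real.log (a : ℝ) := by linarith
  have hlb0 : 0 < Real.log (b : ℝ) := by linarith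
  have hlc0 : 0 < Real.log (c : ℝ) := by linarith
  -- sizes of `a` and `b`
  have hbc : (b : ℝ) = c - a := by
    have : (c : ℝ) = a + b := by exact_mod_cast habc.symm
    linarith
  have hac2 := abs_lt.1 hac
  have hac3 : (c : ℝ) / 4 ≤ a := by
    have h3 : 1 / 4 ≤ (a : ℝ) / c := by linarith [hac2.1]
    rw [le_div_iff₀ hc0'] at h3
    linarith
  have hbc3 : (c : ℝ) / 4 ≤ b := by
    have h3 : (a : ℝ) / c ≤ 3 / 4 := by linarith [hac2.2]
    rw [div_le_iff₀ hc0'] at h3
    linarith
  have hla4 : Real.log c - Real.log 4 ≤ Real.log a := by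
    rw [← Real.log_div hc0'.ne' (by norm_num)]
    exact Real.log_le_log (by positivity) hac3
  have hlb4 : Real.log c - Real.log 4 ≤ Real.log b := by
    rw [← Real.log_div hc0'.ne' (by norm_num)]
    exact Real.log_le_log (by positivity) hbc3
  -- radicals
  have conv : ∀ t : ℕ, 0 < Real.log (t : ℝ) → Real.log (t : ℝ) ≤ Real.log c →
      |Real.log (Pool.Agent.Results.MP_2ec8a3_nt.JointLimitPoints.rad t) / Real.log t - al| < e →
      |Real.log (rad1 t) - al * Real.log t| ≤ e * Real.log c := by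
    intro t ht htc h
    have h3 : Real.log (rad1 t) - al * Real.log t =
        (Real.log (Pool.Agent.Results.MP_2ec8a3_nt.JointLimitPoints.rad t) / Real.log t - al) *
          Real.log t := by
      have : Pool.Agent.Results.MP_2ec8a3_nt.JointLimitPoints.rad t = rad1 t := rfl
      rw [this, sub_mul, div_mul_cancel₀ _ ht.ne']
    rw [h3, abs_mul, abs_of_pos ht]
    exact mul_le_mul h.le htc ht.le he0.le
  have qa := abs_le.1 (conv a hla0 hlac ra)
  have qb := abs_le.1 (conv b hlb0 hlbc rb)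
  have qc := abs_le.1 (conv c hlc0 le_rfl rc)
  have hrad : rad1 (a * b * (a + b)) = rad1 a * rad1 b * rad1 c := by
    have h3 : Nat.Coprime (a * b) (a + b) := by
      rw [Nat.coprime_mul_iff_left]
      constructor
      · rw [Nat.coprime_self_add_right]; exact hab
      · rw [Nat.coprime_add_self_right]; exact hab.symm
    rw [rad1_mul h3, rad1_mul hab, habc]
  have hra : (0 : ℝ) < rad1 a := by exact_mod_cast rad1_pos a
  have hrb : (0 : ℝ) < rad1 b := by exact_mod_cast rad1_pos b
  have hrc : (0 : ℝ) < rad1 c := by exact_mod_cast rad1_pos c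
  have hlr : Real.log ((rad1 (a * b * (a + b)) : ℕ) : ℝ) =
      Real.log (rad1 a) + Real.log (rad1 b) + Real.log (rad1 c) := by
    rw [hrad]; push_cast
    rw [Real.log_mul (by positivity) hrc.ne', Real.log_mul hra.ne' hrb.ne']
  have hR1 : Real.log (rad1 a) + Real.log (rad1 b) + Real.log (rad1 c) ≤ LR (tup k a b) := by
    rw [← hlr]
    apply Real.log_le_log
    · exact_mod_cast rad1_pos _
    · exact_mod_cast tup_rd_ge k a b hA
  have hR2 : LR (tup k a b) ≤
      Real.log (rad1 a) + Real.log (rad1 b) + Real.log (rad1 c) + Real.log (E k) := by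
    rw [← hlr]
    have hp : (0 : ℝ) < ((rad1 (a * b * (a + b)) : ℕ) : ℝ) := by exact_mod_cast rad1_pos _
    rw [← Real.log_mul hp.ne' (by linarith)]
    apply Real.log_le_log
    · exact_mod_cast rd_pos _
    · exact_mod_cast tup_rd k a b ha0 hb0
  have hcab : a + b = c := habc
  have hH1 : (m : ℝ) * Real.log c ≤ LH (tup k a b) := by
    rw [← Real.log_pow]
    apply Real.log_le_log (by positivity)
    have := tup_sz_ge k a b
    rw [hcab] at this
    exact_mod_cast this
  have hH2 : LH (tup k a b) ≤ Real.log (E k) + m * Real.log c := by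
    rw [← Real.log_pow, ← Real.log_mul (by linarith) (by positivity)]
    apply Real.log_le_log
    · exact_mod_cast sz_pos (by omega) hA
    · have := tup_sz_le k a b
      rw [hcab] at this
      exact_mod_cast this
  -- the logarithm of the radical
  set l := Real.log (c : ℝ) with hl
  have u1 : LR (tup k a b) ≤ 3 * al * l + 3 * e * l + Real.log (E k) := by
    have := mul_le_mul_of_nonneg_left hlac (show 0 ≤ al by linarith)
    have := mul_le_mul_of_nonneg_left hlbc (show 0 ≤ al by linarith)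
    linarith [qa.2, qb.2, qc.2]
  have u2 : 3 * al * l - 3 * e * l - 2 * Real.log 4 ≤ LR (tup k a b) := by
    have v1 := mul_le_mul_of_nonneg_left hla4 (show 0 ≤ al by linarith)
    have v2 := mul_le_mul_of_nonneg_left hlb4 (show 0 ≤ al by linarith)
    have v3 : al * Real.log 4 ≤ Real.log 4 := by nlinarith
    linarith [qa.1, qb.1, qc.1]
  have w1 : LH (tup k a b) - lam * LR (tup k a b) ≤ Real.log (E k) +
      lam * (3 * e * l + 2 * Real.log 4) := by
    have h3 := mul_le_mul_of_nonneg_left u2 hl0.le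
    have h4 : lam * (3 * al * l - 3 * e * l - 2 * Real.log 4) =
        (lam * (3 * al)) * l - lam * (3 * e * l + 2 * Real.log 4) := by ring
    rw [h4, hal3] at h3
    linarith
  have w2 : -(lam * (3 * e * l + Real.log (E k))) ≤ LH (tup k a b) - lam * LR (tup k a b) := by
    have h3 := mul_le_mul_of_nonneg_left u1 hl0.le
    have h4 : lam * (3 * al * l + 3 * e * l + Real.log (E k)) =
        (lam * (3 * al)) * l + lam * (3 * e * l + Real.log (E k)) := by ring
    rw [h4, hal3] at h3
    linarith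
  have w3 : |LH (tup k a b) - lam * LR (tup k a b)| ≤ K + (lam * (3 * e)) * l := by
    rw [abs_le]
    have h3 : 0 ≤ lam * Real.log (E k) := by positivity
    have h4 : 0 ≤ lam * Real.log 4 := by positivity
    constructor
    · rw [hK]; nlinarith
    · rw [hK]; nlinarith
  have w4 : l / 2 ≤ LR (tup k a b) := by
    have h3 : 4 * Real.log 4 ≤ N1 := (le_max_left _ _).trans (le_max_right _ _)
    have h4 : e * l ≤ 1 / 10 * l := mul_le_mul_of_nonneg_right he1 hlc0.le
    have h5 : 2 / 5 * l ≤ al * l := mul_le_mul_of_nonneg_right hal2 hlc0.le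
    nlinarith
  refine ⟨tup k a b, hA, ?_, w3.trans ?_⟩
  · have h3 : N ≤ N1 := (le_max_left N 0).trans (le_max_left _ _)
    have h4 : l ≤ m * l := by nlinarith
    linarith
  · have h3 : 4 * K / ε ≤ N1 := (le_max_right _ _).trans (le_max_right _ _)
    have h4 : 4 * K / ε < l := by linarith
    rw [div_lt_iff₀ hε] at h4
    have h5 : lam * (3 * e) * l ≤ ε / 4 * l := mul_le_mul_of_nonneg_right he2 hlc0.le
    have h6 : ε * (l / 2) ≤ ε * LR (tup k a b) := mul_le_mul_of_nonneg_left w4 hε.le
    linarith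

end Pool.Agent.H584.NT
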