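import Pool.Agent.H584.NT.Low
import Pool.Agent.H584.NT.Top

set_option autoImplicit false

/-!
# The set of limit points of the exponents
-/

namespace Pool.Agent.H584.NT

open Finset Filter Topology Pool.Agent.Q39.NT

/-- large exponents for `n` give all smaller exponents for `n + 1` -/
theorem all_below {n : ℕ} (hn : 3 ≤ n) {q : ℝ}
    (H : ∀ N : ℝ, ∃ x : Fin n → ℤ, Adm x ∧ N < LH x ∧ q * LR x ≤ LH x) :
    ∀ lam : ℝ, 1 / ((n : ℝ) + 1) ≤ lam → lam ≤ q → IsLim (n + 1) lam := by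
  intro lam h1 h2
  have hn0 : (3 : ℝ) ≤ n := by exact_mod_cast hn
  by_cases h3 : lam ≤ 1 / (n : ℝ)
  · have h4 := mid (n := n + 1) (by omega) lam
    push_cast at h4
    exact h4 h1 (by rwa [add_sub_cancel_right])
  · rw [not_le] at h3
    by_cases h5 : lam ≤ 1 / 2
    · refine spec_down hn (p := 1 / (n : ℝ)) (by positivity) ?_ (fun q hq N => low hn q hq N) lam
        h3.le h5
      rw [div_lt_div_iff₀ (by linarith) (by norm_num)]
      linarith
    · rw [not_le] at h5
      exact spec_up hn (lt_of_lt_of_le h5 h2) H lam h5.le h2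

/-- the records of Browkin and Brzezinski -/
lemma rec_tuples (k : ℕ) (N : ℝ) : ∃ x : Fin (k + 3) → ℤ, Adm x ∧ N < LH x ∧
    ((2 * k + 1 : ℕ) : ℝ) * LR x ≤ LH x := by
  obtain ⟨x, hx, j, hj1, hj2⟩ := records k (κ := 0) le_rfl (by positivity) (Real.exp N)
  have hj0 : (0 : ℝ) < |(x j : ℝ)| := (Real.exp_pos _).trans hj1
  have h1 : Real.log |(x j : ℝ)| ≤ LH x := by
    apply Real.log_le_log hj0
    have h2 := le_sz x j
    have h3 : |(x j : ℝ)| = ((x j).natAbs : ℝ) := by
      rw [Nat.cast_natAbs, Int.cast_abs]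
    rw [h3]
    exact_mod_cast h2
  refine ⟨x, hx, ((Real.lt_log_iff_exp_lt hj0).2 hj1).trans_le h1, ?_⟩
  have h4 : (0 : ℝ) < rd x := by exact_mod_cast rd_pos x
  simp only [zero_mul, zero_div, Real.exp_zero, mul_one] at hj2
  have h5 := Real.log_lt_log (by positivity) hj2
  rw [Real.log_pow] at h5
  exact h5.le.trans h1

theorem spectrum {n : ℕ} (hn : 4 ≤ n) (lam : ℝ) (h1 : 1 / (n : ℝ) ≤ lam)
    (h2 : lam ≤ max (2 * (n : ℝ) - 7) (5 / 6 * (2 * (n : ℝ) - 5))) : IsLim n lam := by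
  obtain ⟨k, rfl⟩ : ∃ k, n = k + 3 + 1 := ⟨n - 4, by omega⟩
  have e1 : (((k + 3 + 1 : ℕ) : ℝ)) = k + 4 := by push_cast; ring
  rw [e1] at h1 h2
  by_cases h3 : lam ≤ ((2 * k + 1 : ℕ) : ℝ)
  · refine all_below (by omega) (fun N => rec_tuples k N) lam ?_ h3
    have : ((k + 3 : ℕ) : ℝ) + 1 = k + 4 := by push_cast; ring
    rw [this]; exact h1
  · rw [not_le] at h3
    push_cast at h3
    have hk : (0 : ℝ) ≤ k := Nat.cast_nonneg k
    have h4 : lam ≤ 5 / 6 * (2 * ((k : ℝ) + 4) - 5) := by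
      rcases le_max_iff.1 h2 with h | h
      · linarith
      · exact h
    have h5 := top (k + 1) lam
    push_cast at h5
    have h6 : k + 1 + 3 = k + 3 + 1 := by ring
    rw [h6] at h5
    exact h5 (by linarith) (by linarith)

theorem lower {n : ℕ} (hn : 3 ≤ n) {lam : ℝ} (h : IsLim n lam) : 1 / (n : ℝ) ≤ lam := by
  have hn0 : (0 : ℝ) < n := by exact_mod_cast (by omega : 0 < n)
  by_contra hcon
  rw [not_le] at hcon
  obtain ⟨x, hx, -, h2⟩ := h (1 / n - lam) (by linarith) 0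
  have hr := LR_pos hn hx
  have h3 : rd x ≤ sz x ^ n := by
    calc rd x ≤ (∏ i, x i).natAbs := Nat.le_of_dvd (Int.natAbs_pos.2
            (prod_ne_zero_iff.2 fun i _ => hx.ne_zero (by omega) i)) (Nat.prod_primeFactors_dvd _)
      _ = ∏ i, (x i).natAbs := by rw [← Int.natAbsHom_apply, map_prod]; rfl
      _ ≤ ∏ _i : Fin n, sz x := prod_le_prod' fun i _ => le_sz x i
      _ = _ := by rw [prod_const, card_univ, Fintype.card_fin]
  have h4 : LR x ≤ n * LH x := by
    unfold LR LH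
    rw [← Real.log_pow]
    apply Real.log_le_log (by exact_mod_cast rd_pos x)
    exact_mod_cast h3
  have h5 : 1 / (n : ℝ) ≤ LH x / LR x := by
    rw [div_le_div_iff₀ hn0 hr]; linarith
  have h6 := (abs_lt.1 h2).2
  unfold LH LR at h5
  linarith

/-- the assertion of Q1 for a fixed `n` -/
def Holds (n : ℕ) : Prop :=
  ∃ M : ℝ, ∀ x : Fin n → ℤ, Adm x → ∀ j, (|x j| : ℝ) ≤ (rd x : ℝ) ^ M

lemma holds_iff {n : ℕ} (hn : 3 ≤ n) : Holds n ↔ ∃ M : ℝ, ∀ x : Fin n → ℤ, Adm x →
    LH x ≤ M * LR x := by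
  unfold Holds
  refine exists_congr fun M => forall_congr' fun x => imp_congr_right fun hx => ?_
  have h1 : (0 : ℝ) < sz x := by exact_mod_cast sz_pos (by omega) hx
  have h2 : (0 : ℝ) < rd x := by exact_mod_cast rd_pos x
  have h3 : LH x ≤ M * LR x ↔ (sz x : ℝ) ≤ (rd x : ℝ) ^ M := by
    unfold LH LR
    rw [← Real.log_rpow h2, Real.log_le_log_iff h1 (by positivity)]
  rw [h3]
  have hab : ∀ j, (|x j| : ℝ) = ((x j).natAbs : ℝ) := fun j => by
    rw [Nat.cast_natAbs, Int.cast_abs]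
  constructor
  · intro h
    obtain ⟨i, -, hi⟩ := Finset.exists_mem_eq_sup univ
      ⟨(⟨0, by omega⟩ : Fin n), mem_univ _⟩ fun i => (x i).natAbs
    have hi' : sz x = (x i).natAbs := hi
    have := h i
    rw [hab] at this
    rw [hi']
    exact this
  · intro h j
    have h4 := le_sz x j
    rw [hab]
    refine le_trans ?_ h
    exact_mod_cast h4

theorem fails {n : ℕ} (hn : 3 ≤ n) (h : ¬ Holds n) (lam : ℝ) (h1 : 1 / ((n : ℝ) + 1) ≤ lam) :
    IsLim (n + 1) lam := by
  rw [holds_iff hn] at h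
  push Not at h
  have hl2 : 0 < Real.log 2 := Real.log_pos (by norm_num)
  refine all_below hn (q := lam) (fun N => ?_) lam h1 le_rfl
  obtain ⟨x, hx, hx2⟩ := h (max lam (max N 0 / Real.log 2))
  have hr : Real.log 2 ≤ LR x := by
    apply Real.log_le_log (by norm_num)
    exact_mod_cast two_le_rd hn hx
  have hr0 : 0 < LR x := LR_pos hn hx
  refine ⟨x, hx, ?_, ?_⟩
  · have h2 : max N 0 / Real.log 2 * LR x ≤ max lam (max N 0 / Real.log 2) * LR x :=
      mul_le_mul_of_nonneg_right (le_max_right _ _) hr0.le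
    have h3 : max N 0 ≤ max N 0 / Real.log 2 * LR x := by
      rw [div_mul_eq_mul_div, le_div_iff₀ hl2]
      exact mul_le_mul_of_nonneg_left hr (le_max_right _ _)
    have := le_max_left N 0
    linarith
  · have h2 : lam * LR x ≤ max lam (max N 0 / Real.log 2) * LR x :=
      mul_le_mul_of_nonneg_right (le_max_left _ _) hr0.le
    linarith

/-- the sharper form of the conjecture for `n`, with the exponent `c` -/
def Sharp (n : ℕ) (c : ℝ) : Prop :=
  ∀ ε : ℝ, 0 < ε → {x : Fin n → ℤ | Adm x ∧ ∃ j, (rd x : ℝ) ^ (c + ε) < (|x j| : ℝ)}.Finite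

lemma exc_iff {n : ℕ} (hn : 3 ≤ n) (M : ℝ) {x : Fin n → ℤ} (hx : Adm x) :
    (∃ j, (rd x : ℝ) ^ M < (|x j| : ℝ)) ↔ M * LR x < LH x := by
  have h1 : (0 : ℝ) < sz x := by exact_mod_cast sz_pos (by omega) hx
  have h2 : (0 : ℝ) < rd x := by exact_mod_cast rd_pos x
  have h3 : M * LR x < LH x ↔ (rd x : ℝ) ^ M < (sz x : ℝ) := by
    unfold LH LR
    rw [← Real.log_rpow h2, Real.log_lt_log_iff (by positivity) h1]
  rw [h3]
  have hab : ∀ j, (|x j| : ℝ) = ((x j).natAbs : ℝ) := fun j => by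
    rw [Nat.cast_natAbs, Int.cast_abs]
  constructor
  · rintro ⟨j, hj⟩
    rw [hab] at hj
    refine lt_of_lt_of_le hj ?_
    exact_mod_cast le_sz x j
  · intro h
    obtain ⟨i, -, hi⟩ := Finset.exists_mem_eq_sup univ
      ⟨(⟨0, by omega⟩ : Fin n), mem_univ _⟩ fun i => (x i).natAbs
    have hi' : sz x = (x i).natAbs := hi
    refine ⟨i, ?_⟩
    rw [hab, ← hi']
    exact h

lemma finite_of_bounded {n : ℕ} {S : Set (Fin n → ℤ)} (N : ℝ) (h : ∀ x ∈ S, (sz x : ℝ) ≤ N) :
    S.Finite := (small_finite n N).subset h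

theorem sharp_iff {n : ℕ} (hn : 3 ≤ n) (c : ℝ) :
    Sharp n c ↔ Holds n ∧ ∀ lam : ℝ, IsLim n lam → lam ≤ c := by
  constructor
  · intro h
    constructor
    · rw [holds_iff hn]
      have hf := h 1 one_pos
      refine ⟨max (c + 1) (∑ x ∈ hf.toFinset, LH x / LR x), fun x hx => ?_⟩
      have hr := LR_pos hn hx
      by_cases h2 : (c + 1) * LR x < LH x
      · have hmem : x ∈ hf.toFinset := by
          rw [hf.mem_toFinset]
          exact ⟨hx, (exc_iff hn _ hx).2 h2⟩
        have h3 : LH x / LR x ≤ ∑ x ∈ hf.toFinset, LH x / LR x :=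
          single_le_sum (f := fun x : Fin n → ℤ => LH x / LR x)
            (fun y _ => div_nonneg (LH_nonneg y) (LR_nonneg y)) hmem
        have h4 : LH x / LR x ≤ max (c + 1) (∑ x ∈ hf.toFinset, LH x / LR x) :=
          h3.trans (le_max_right _ _)
        rwa [div_le_iff₀ hr] at h4
      · rw [not_lt] at h2
        exact h2.trans (mul_le_mul_of_nonneg_right (le_max_left _ _) hr.le)
    · intro lam hlam
      by_contra hcon
      rw [not_le] at hcon
      set e : ℝ := (lam - c) / 2 with he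
      have he0 : 0 < e := by rw [he]; linarith
      have hf := h e he0
      obtain ⟨x, hx, hN, hq⟩ := hlam e he0 (∑ x ∈ hf.toFinset, (sz x : ℝ))
      have hr := LR_pos hn hx
      have h2 : (c + e) * LR x < LH x := by
        have h3 := (abs_lt.1 hq).1
        have h4 : c + e < Real.log (sz x) / Real.log (rd x) := by
          have : lam - e = c + e := by rw [he]; ring
          linarith
        have h5 : 0 < Real.log (rd x : ℝ) := hr
        rw [lt_div_iff₀ h5] at h4
        exact h4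
      have hmem : x ∈ hf.toFinset := by
        rw [hf.mem_toFinset]
        exact ⟨hx, (exc_iff hn _ hx).2 h2⟩
      have h3 : (sz x : ℝ) ≤ ∑ x ∈ hf.toFinset, (sz x : ℝ) :=
        single_le_sum (f := fun x : Fin n → ℤ => (sz x : ℝ)) (fun y _ => Nat.cast_nonneg _) hmem
      linarith
  · rintro ⟨hH, hL⟩ ε hε
    rw [holds_iff hn] at hH
    obtain ⟨M, hM⟩ := hH
    by_contra hinf
    set S : Set (Fin n → ℤ) := {x | Adm x ∧ ∃ j, (rd x : ℝ) ^ (c + ε) < (|x j| : ℝ)} with hS
    -- the tuples of `S` have unbounded sizes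
    have hub : ∀ N : ℕ, ∃ x ∈ S, (N : ℝ) < sz x := by
      intro N
      by_contra hcon
      push Not at hcon
      exact hinf (finite_of_bounded N hcon)
    choose f hf1 hf2 using hub
    have hfA : ∀ N, Adm (f N) := fun N => (hf1 N).1
    have hq : ∀ N, LH (f N) / LR (f N) ∈ Set.Icc (c + ε) M := by
      intro N
      have hr := LR_pos hn (hfA N)
      constructor
      · rw [le_div_iff₀ hr]
        exact ((exc_iff hn _ (hfA N)).1 (hf1 N).2).le
      · rw [div_le_iff₀ hr]
        exact hM _ (hfA N)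
    obtain ⟨lam, hlam, φ, hφ, hlim⟩ := isCompact_Icc.tendsto_subseq hq
    have h1 : IsLim n lam := by
      intro δ hδ N
      obtain ⟨K, hK⟩ := exists_nat_gt N
      obtain ⟨j, hj1, hj2⟩ := ((Metric.tendsto_nhds.1 hlim δ hδ).and
        (eventually_ge_atTop K)).exists
      refine ⟨f (φ j), hfA _, ?_, ?_⟩
      · have h2 := hf2 (φ j)
        have h3 : (K : ℝ) ≤ (φ j : ℝ) := by exact_mod_cast hj2.trans (hφ.id_le j)
        linarith
      · have h2 := hj1
        rw [Real.dist_eq] at h2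
        exact h2
    have h2 := hL lam h1
    linarith [hlam.1]

end Pool.Agent.H584.NT
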