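import Pool.Agent.H584.NT.Spec
import Pool.Graph.R_seed8.Results.MP_a95293_nt.ExactExponentOfExceptions
import Pool.Graph.R_pool_sql_team_seeded_2aa45f1a.Results.MP_a95293_nt.ExactCountOfExceptions

set_option autoImplicit false

/-!
# Admissible tuples with small exponents
-/

namespace Pool.Agent.H584.NT

open Finset Filter Topology Pool.Agent.Q39.NT

lemma exists_outside {β : Type} {S T U : Set β} (hT : T.Finite) (hU : U.Finite)
    (h : (T.ncard : ℝ) + U.ncard < S.ncard) : ∃ x ∈ S, x ∉ T ∧ x ∉ U := by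
  by_contra hcon
  push Not at hcon
  have h1 : S ⊆ T ∪ U := by
    intro x hx
    by_cases h2 : x ∈ T
    · exact Or.inl h2
    · exact Or.inr (hcon x hx h2)
  have h2 := Set.ncard_le_ncard h1 (hT.union hU)
  have h3 := Set.ncard_union_le T U
  have h4 : ((S.ncard : ℕ) : ℝ) ≤ (T.ncard : ℝ) + U.ncard := by exact_mod_cast h2.trans h3
  linarith

/-- the tuples of bounded size -/
lemma small_finite (n : ℕ) (K : ℝ) : {x : Fin n → ℤ | (sz x : ℝ) ≤ K}.Finite := by
  refine Set.Finite.subset (Finset.finite_toSet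
    (Fintype.piFinset fun _ : Fin n => Finset.Icc (-(⌊K⌋₊ : ℤ)) ⌊K⌋₊)) ?_
  intro x hx
  rw [Finset.mem_coe, Fintype.mem_piFinset]
  intro j
  have h3 : (x j).natAbs ≤ ⌊K⌋₊ := by
    apply Nat.le_floor
    exact le_trans (by exact_mod_cast le_sz x j) (show (sz x : ℝ) ≤ K from hx)
  rw [Finset.mem_Icc]
  omega

lemma LH_gt {n : ℕ} (hn : 2 ≤ n) {x : Fin n → ℤ} (hx : Adm x) {N : ℝ}
    (h : ¬ (sz x : ℝ) ≤ Real.exp N) : N < LH x := by
  rw [not_le] at h
  have h1 : (0 : ℝ) < sz x := by exact_mod_cast sz_pos hn hx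
  exact (Real.lt_log_iff_exp_lt h1).2 h

theorem low {n : ℕ} (hn : 3 ≤ n) (q : ℝ) (hq : 1 / (n : ℝ) < q) (N : ℝ) :
    ∃ x : Fin n → ℤ, Adm x ∧ N < LH x ∧ LH x ≤ q * LR x := by
  have hn0 : (0 : ℝ) < n := by exact_mod_cast (by omega : 0 < n)
  have hq0 : 0 < q := lt_trans (by positivity) hq
  obtain ⟨hfin, ⟨c, hc, C, X₀, hcX⟩, hexc, -⟩ :=
    Pool.Agent.Results.MP_a95293_nt.ExactExponentOfExceptions.result n hn q hq
  obtain ⟨ν, hν, C', hC'⟩ := hexc q hq
  set E : ℝ := ((n : ℝ) - 1) / n with hE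
  have hE0 : 0 < E := by
    rw [hE]
    have : (3 : ℝ) ≤ n := by exact_mod_cast hn
    apply div_pos (by linarith) hn0
  set U : Set (Fin n → ℤ) := {x | (sz x : ℝ) ≤ Real.exp N} with hU
  have hUf : U.Finite := small_finite n _
  -- the choice of `X`
  obtain ⟨X, hX1, hX2, hX3, hX4⟩ : ∃ X : ℝ, X₀ ≤ X ∧ 1 ≤ X ∧ |C'| * X ^ (-ν) ≤ c / 2 ∧
      (U.ncard : ℝ) < c / 2 * X ^ E := by
    have t1 : Tendsto (fun X : ℝ => |C'| * X ^ (-ν)) atTop (𝓝 0) := by
      have := (tendsto_rpow_neg_atTop hν).const_mul |C'|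
      rwa [mul_zero] at this
    have t2 : Tendsto (fun X : ℝ => c / 2 * X ^ E) atTop atTop :=
      (tendsto_rpow_atTop hE0).const_mul_atTop (by positivity)
    obtain ⟨X, h⟩ := (((eventually_ge_atTop X₀).and (eventually_ge_atTop 1)).and
      (((tendsto_order.1 t1).2 (c / 2) (by positivity)).and
        (t2.eventually (eventually_gt_atTop (U.ncard : ℝ))))).exists
    exact ⟨X, h.1.1, h.1.2, h.2.1.le, h.2.2⟩
  have hX0 : 0 < X := by linarith
  have h1 := (hcX X hX1).1
  have h2 := hC' X hX2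
  have h3 : C' * X ^ (E - ν) ≤ c / 2 * X ^ E := by
    have h4 : X ^ (E - ν) = X ^ (-ν) * X ^ E := by
      rw [← Real.rpow_add hX0]; congr 1; ring
    rw [h4]
    have h5 : 0 < X ^ E := by positivity
    have h6 : 0 < X ^ (-ν) := by positivity
    calc C' * (X ^ (-ν) * X ^ E) ≤ |C'| * (X ^ (-ν) * X ^ E) :=
          mul_le_mul_of_nonneg_right (le_abs_self _) (by positivity)
      _ = (|C'| * X ^ (-ν)) * X ^ E := by ring
      _ ≤ _ := mul_le_mul_of_nonneg_right hX3 h5.le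
  have hfe : (Pool.Agent.Results.MP_a95293_nt.ExactExponentOfExceptions.Exceptions n q q X).Finite :=
    (hfin X).subset fun x hx => hx.1
  obtain ⟨x, hx1, hx2, hx3⟩ := exists_outside hfe hUf (S :=
    Pool.Agent.Results.MP_a95293_nt.ExactExponentOfExceptions.Tuples n q X) (by linarith)
  have hxA : Adm x := hx1.1
  refine ⟨x, hxA, LH_gt (by omega) hxA hx3, ?_⟩
  have h7 : ((sz x : ℕ) : ℝ) ≤ ((rd x : ℕ) : ℝ) ^ q := by
    by_contra h8
    rw [not_le] at h8
    exact hx2 ⟨hx1, h8⟩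
  have h8 : (0 : ℝ) < sz x := by exact_mod_cast sz_pos (by omega) hxA
  have h9 : (0 : ℝ) < rd x := by exact_mod_cast rd_pos x
  have h10 := Real.log_le_log h8 h7
  rw [Real.log_rpow h9] at h10
  exact h10

theorem mid {n : ℕ} (hn : 4 ≤ n) : ∀ lam : ℝ, 1 / (n : ℝ) ≤ lam → lam ≤ 1 / ((n : ℝ) - 1) →
    IsLim n lam := by
  have hn0 : (4 : ℝ) ≤ n := by exact_mod_cast hn
  have hlt : 1 / (n : ℝ) < 1 / ((n : ℝ) - 1) := by
    apply one_div_lt_one_div_of_lt <;> linarith
  refine IsLim.Icc hlt fun lam h1 h2 => isLim_of (by omega) fun ε hε N => ?_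
  obtain ⟨hcount, -⟩ := Pool.Agent.Results.MP_a95293_nt.ExactCountOfExceptions.result n hn
  have hl0 : 0 < lam := lt_trans (by positivity) h1
  obtain ⟨M, hM1, hM2⟩ : ∃ M, lam < M ∧ M < min (lam + ε) (1 / ((n : ℝ) - 1)) :=
    exists_between (lt_min (by linarith) h2)
  have hM3 : M < lam + ε := hM2.trans_le (min_le_left _ _)
  have hM4 : M < 1 / ((n : ℝ) - 1) := hM2.trans_le (min_le_right _ _)
  have hM0 : 0 < M := by linarith
  obtain ⟨f1, t1⟩ := hcount lam h1 h2
  obtain ⟨f2, t2⟩ := hcount M (h1.trans hM1) hM4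
  have hab : 1 / M - 1 < 1 / lam - 1 := by
    have := one_div_lt_one_div_of_lt hl0 hM1
    linarith
  have hb0 : 0 < 1 / M - 1 := by
    have hM5 : M < 1 := by
      refine hM4.trans ?_
      rw [div_lt_one (by linarith)]; linarith
    have : 1 < 1 / M := by rw [lt_div_iff₀ hM0]; linarith
    linarith
  obtain ⟨s, hs1, hs2⟩ := exists_between hab
  obtain ⟨t, ht1, ht2⟩ := exists_between hs2
  set U : Set (Fin n → ℤ) := {x | (sz x : ℝ) ≤ Real.exp N} with hU
  have hUf : U.Finite := small_finite n _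
  have ev3 : ∀ᶠ X : ℝ in atTop, (U.ncard : ℝ) + X ^ s ≤ X ^ t := by
    have t3 : Tendsto (fun X : ℝ => X ^ s * (X ^ (t - s) - 1)) atTop atTop := by
      apply Tendsto.atTop_mul_atTop₀ (tendsto_rpow_atTop (by linarith))
      exact tendsto_atTop_add_const_right _ _ (tendsto_rpow_atTop (by linarith))
    filter_upwards [t3.eventually (eventually_ge_atTop (U.ncard : ℝ)), eventually_gt_atTop 0]
      with X hX hX0
    have h3 : X ^ s * (X ^ (t - s) - 1) = X ^ t - X ^ s := by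
      rw [mul_sub, ← Real.rpow_add hX0, mul_one]; congr 2; ring
    rw [h3] at hX
    linarith
  obtain ⟨X, ⟨⟨hX1, hX2⟩, hX3⟩, hX4⟩ := ((((tendsto_order.1 t1).1 t ht2).and
    ((tendsto_order.1 t2).2 s hs1)).and ev3 |>.and (eventually_gt_atTop (1 : ℝ))).exists
  have hlog : 0 < Real.log X := Real.log_pos hX4
  have hX0 : 0 < X := by linarith
  rw [lt_div_iff₀ hlog] at hX1
  rw [div_lt_iff₀ hlog] at hX2
  have k1 : X ^ t < ((Pool.Agent.Results.MP_a95293_nt.ExactCountOfExceptions.Exceptions n lam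
      X).ncard : ℝ) := by
    have hpos : (0 : ℝ) < ((Pool.Agent.Results.MP_a95293_nt.ExactCountOfExceptions.Exceptions n lam
        X).ncard : ℝ) := by
      rcases Nat.eq_zero_or_pos (Pool.Agent.Results.MP_a95293_nt.ExactCountOfExceptions.Exceptions
        n lam X).ncard with h | h
      · rw [h, Nat.cast_zero, Real.log_zero] at hX1
        have : 0 < t * Real.log X := mul_pos (by linarith) hlog
        linarith
      · exact_mod_cast h
    rw [← Real.log_lt_log_iff (by positivity) hpos, Real.log_rpow hX0]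
    exact hX1
  have k2 : ((Pool.Agent.Results.MP_a95293_nt.ExactCountOfExceptions.Exceptions n M
      X).ncard : ℝ) < X ^ s := by
    rcases Nat.eq_zero_or_pos (Pool.Agent.Results.MP_a95293_nt.ExactCountOfExceptions.Exceptions
        n M X).ncard with h | h
    · rw [h, Nat.cast_zero]; positivity
    · rw [← Real.log_lt_log_iff (by exact_mod_cast h) (by positivity), Real.log_rpow hX0]
      exact hX2
  obtain ⟨x, hx1, hx2, hx3⟩ := exists_outside (f2 X hX4.le) hUf (S :=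
    Pool.Agent.Results.MP_a95293_nt.ExactCountOfExceptions.Exceptions n lam X) (by linarith)
  have hxA : Adm x := hx1.1
  have h8 : (0 : ℝ) < sz x := by exact_mod_cast sz_pos (by omega) hxA
  have h9 : (0 : ℝ) < rd x := by exact_mod_cast rd_pos x
  refine ⟨x, hxA, LH_gt (by omega) hxA hx3, ?_⟩
  have h5 : lam * LR x < LH x := by
    have h6 : ((rd x : ℕ) : ℝ) ^ lam < ((sz x : ℕ) : ℝ) := hx1.2.2
    have h7 := Real.log_lt_log (by positivity) h6
    rwa [Real.log_rpow h9] at h7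
  have h6 : LH x ≤ M * LR x := by
    have h7 : ((sz x : ℕ) : ℝ) ≤ ((rd x : ℕ) : ℝ) ^ M := by
      by_contra h10
      rw [not_le] at h10
      exact hx2 ⟨hx1.1, hx1.2.1, h10⟩
    have h10 := Real.log_le_log h8 h7
    rwa [Real.log_rpow h9] at h10
  rw [abs_of_pos (by linarith)]
  have hr := LR_nonneg x
  nlinarith

end Pool.Agent.H584.NT
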