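import Pool.Agent.H584.NT.Avg
import Pool.Graph.R_pool_sql_team_seeded_2aa45f1a.Q39.NT.Rec

set_option autoImplicit false

/-!
# Mixing an admissible tuple with the triple `1 + m = m + 1`
-/

namespace Pool.Agent.H584.NT

open Finset Pool.Agent.Q39.NT

/-- the size `max |x_i|` -/
def sz {n : ℕ} (x : Fin n → ℤ) : ℕ := univ.sup fun i => (x i).natAbs

/-- its logarithm -/
noncomputable def LH {n : ℕ} (x : Fin n → ℤ) : ℝ := Real.log (sz x)

/-- the logarithm of the radical -/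
noncomputable def LR {n : ℕ} (x : Fin n → ℤ) : ℝ := Real.log (rd x)

lemma le_sz {n : ℕ} (x : Fin n → ℤ) (i : Fin n) : (x i).natAbs ≤ sz x :=
  le_sup (f := fun i => (x i).natAbs) (mem_univ i)

lemma sz_pos {n : ℕ} (hn : 2 ≤ n) {x : Fin n → ℤ} (hx : Adm x) : 0 < sz x := by
  have h := hx.ne_zero hn ⟨0, by omega⟩
  have h2 := le_sz x ⟨0, by omega⟩
  have h3 := Int.natAbs_pos.2 h
  omega

lemma LR_eq {n : ℕ} (x : Fin n → ℤ) :
    LR x = ∑ p ∈ (∏ i, x i).natAbs.primeFactors, Real.log p := by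
  unfold LR rd
  push_cast
  rw [Real.log_prod]
  intro p hp
  have := (Nat.prime_of_mem_primeFactors hp).pos
  positivity

lemma LR_nonneg {n : ℕ} (x : Fin n → ℤ) : 0 ≤ LR x := Real.log_natCast_nonneg _

lemma LH_nonneg {n : ℕ} (x : Fin n → ℤ) : 0 ≤ LH x := Real.log_natCast_nonneg _

/-- the tuple `(x_{i₀}, m x_{i₀}, (m + 1) x_i (i ≠ i₀))` -/
def mixT {n : ℕ} (x : Fin n → ℤ) (i₀ : Fin n) (m : ℕ) : Fin (n + 1) → ℤ :=
  Fin.cons (x i₀) fun i => if i = i₀ then (m : ℤ) * x i₀ else ((m : ℤ) + 1) * x i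

lemma mix_in {n : ℕ} (x : Fin n → ℤ) (i₀ : Fin n) (m : ℕ) (I : Finset (Fin n)) (hI : i₀ ∈ I) :
    x i₀ + ∑ i ∈ I, (if i = i₀ then (m : ℤ) * x i₀ else ((m : ℤ) + 1) * x i) =
      ((m : ℤ) + 1) * ∑ i ∈ I, x i := by
  classical
  rw [← add_sum_erase I _ hI, ← add_sum_erase I x hI, if_pos rfl, mul_add, mul_sum,
    sum_congr rfl (fun i hi => if_neg (ne_of_mem_erase hi))]
  ring

lemma mix_out {n : ℕ} (x : Fin n → ℤ) (i₀ : Fin n) (m : ℕ) (I : Finset (Fin n)) (hI : i₀ ∉ I) :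
    ∑ i ∈ I, (if i = i₀ then (m : ℤ) * x i₀ else ((m : ℤ) + 1) * x i) =
      ((m : ℤ) + 1) * ∑ i ∈ I, x i := by
  rw [mul_sum]
  refine sum_congr rfl fun i hi' => if_neg fun h => hI ?_
  rwa [← h]

lemma mix_sum {n : ℕ} {x : Fin n → ℤ} (hx : Adm x) (i₀ : Fin n) (m : ℕ) :
    ∑ i, mixT x i₀ m i = 0 := by
  rw [Fin.sum_univ_succ]
  simp only [mixT, Fin.cons_zero, Fin.cons_succ]
  rw [mix_in x i₀ m univ (mem_univ _), hx.2.1, mul_zero]

lemma mix_sub {n : ℕ} {x : Fin n → ℤ} (hx : Adm x) (i₀ : Fin n) {m : ℕ}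
    (hm : ¬ ((m : ℤ) + 1) ∣ x i₀) (J : Finset (Fin (n + 1))) (hJ : J.Nonempty) (hJ2 : J ≠ univ) :
    ∑ i ∈ J, mixT x i₀ m i ≠ 0 := by
  classical
  have hm0 : ((m : ℤ) + 1) ≠ 0 := by positivity
  set I : Finset (Fin n) := univ.filter fun i => i.succ ∈ J with hI
  have hJsum : ∑ i ∈ J, mixT x i₀ m i = (if (0 : Fin (n + 1)) ∈ J then x i₀ else 0) +
      ∑ i ∈ I, (if i = i₀ then (m : ℤ) * x i₀ else ((m : ℤ) + 1) * x i) := by
    have h1 : ∑ i ∈ J, mixT x i₀ m i = ∑ i, if i ∈ J then mixT x i₀ m i else 0 := by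
      rw [← sum_filter]
      congr 1
      ext i
      simp
    rw [h1, Fin.sum_univ_succ, hI, sum_filter]
    simp only [mixT, Fin.cons_zero, Fin.cons_succ]
  rw [hJsum]
  have hIuniv : (0 : Fin (n + 1)) ∈ J → I ≠ univ := by
    intro h0 h
    apply hJ2
    ext i
    refine ⟨fun _ => mem_univ _, fun _ => ?_⟩
    refine Fin.cases h0 (fun i => ?_) i
    have : i ∈ I := by rw [h]; exact mem_univ _
    exact (mem_filter.1 this).2
  by_cases h0 : (0 : Fin (n + 1)) ∈ J
  · rw [if_pos h0]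
    by_cases h1 : i₀ ∈ I
    · rw [mix_in x i₀ m I h1]
      exact mul_ne_zero hm0 (hx.2.2 I ⟨_, h1⟩ (hIuniv h0))
    · rw [mix_out x i₀ m I h1]
      intro h2
      apply hm
      exact ⟨-∑ i ∈ I, x i, by linarith⟩
  · rw [if_neg h0, zero_add]
    by_cases h1 : i₀ ∈ I
    · intro h2
      have h3 := mix_in x i₀ m I h1
      rw [h2, add_zero] at h3
      exact hm ⟨_, h3⟩
    · rw [mix_out x i₀ m I h1]
      refine mul_ne_zero hm0 (hx.2.2 I ?_ fun h => h1 (by rw [h]; exact mem_univ _))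
      obtain ⟨j, hj⟩ := hJ
      rcases Fin.eq_zero_or_eq_succ j with rfl | ⟨i, rfl⟩
      · exact absurd hj h0
      · exact ⟨i, by rw [hI, mem_filter]; exact ⟨mem_univ _, hj⟩⟩

/-- dividing by the greatest common divisor -/
lemma prim {n : ℕ} (hn : 2 ≤ n) {y : Fin n → ℤ} (h1 : ∑ i, y i = 0)
    (h2 : ∀ I : Finset (Fin n), I.Nonempty → I ≠ univ → ∑ i ∈ I, y i ≠ 0) :
    ∃ (z : Fin n → ℤ) (D : ℤ), Adm z ∧ D ≠ 0 ∧ (∀ i, y i = D * z i) ∧ D = univ.gcd y := by
  obtain ⟨z, hz1, hz2⟩ := Finset.extract_gcd (s := univ) y ⟨(⟨0, by omega⟩ : Fin n), mem_univ _⟩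
  have hD : univ.gcd y ≠ 0 := by
    intro h
    have h3 := h2 {(⟨0, by omega⟩ : Fin n)} (singleton_nonempty _) (by
      intro h
      have h1 := congrArg Finset.card h
      rw [card_singleton, card_univ, Fintype.card_fin] at h1
      omega)
    rw [sum_singleton] at h3
    exact h3 (Finset.gcd_eq_zero_iff.1 h _ (mem_univ _))
  have hy : ∀ i, y i = univ.gcd y * z i := fun i => hz1 i (mem_univ i)
  have hsum : ∀ I : Finset (Fin n), ∑ i ∈ I, y i = univ.gcd y * ∑ i ∈ I, z i := by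
    intro I
    rw [mul_sum]
    exact sum_congr rfl fun i _ => hy i
  refine ⟨z, univ.gcd y, ⟨hz2, ?_, fun I hI hI2 h => ?_⟩, hD, hy, rfl⟩
  · have h3 := hsum univ
    rw [h1] at h3
    exact (mul_eq_zero.1 h3.symm).resolve_left hD
  · apply h2 I hI hI2
    rw [hsum, h, mul_zero]

/-- **The mixing lemma.** -/
theorem mix {n : ℕ} (hn : 2 ≤ n) {x : Fin n → ℤ} (hx : Adm x) {m : ℕ} (hm : 0 < m)
    (hG : G (∏ i, x i).natAbs (m + 1) < Real.log ((m + 1 : ℕ) : ℝ)) :
    ∃ z : Fin (n + 1) → ℤ, Adm z ∧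
      LH x + Real.log ((m + 1 : ℕ) : ℝ) - Real.log n - G (∏ i, x i).natAbs (m + 1) ≤ LH z ∧
      LH z ≤ LH x + Real.log ((m + 1 : ℕ) : ℝ) ∧
      LR x + Real.log m + Real.log ((m + 1 : ℕ) : ℝ) - G (∏ i, x i).natAbs m -
        2 * G (∏ i, x i).natAbs (m + 1) ≤ LR z ∧
      LR z ≤ LR x + Real.log m + Real.log ((m + 1 : ℕ) : ℝ) := by
  classical
  have hne : ∀ i, x i ≠ 0 := hx.ne_zero hn
  set R : ℕ := (∏ i, x i).natAbs with hR
  have hR0 : R ≠ 0 := Int.natAbs_ne_zero.2 (prod_ne_zero_iff.2 fun i _ => hne i)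
  have hxR : ∀ (p : ℕ) (i : Fin n), (p : ℤ) ∣ x i → p ∣ R := fun p i h =>
    Int.natCast_dvd.1 (h.trans (dvd_prod_of_mem _ (mem_univ i)))
  set i₀ : Fin n := ⟨0, by omega⟩ with hi₀
  set i₁ : Fin n := ⟨1, by omega⟩ with hi₁
  have h01 : i₁ ≠ i₀ := by rw [hi₀, hi₁]; intro h; simp at h
  have hnd : ¬ ((m : ℤ) + 1) ∣ x i₀ := by
    intro h
    have h1 : ∀ p : ℕ, p.Prime → p ∣ m + 1 → p ∣ R := by
      intro p _ hp
      apply hxR p i₀
      have : (p : ℤ) ∣ (m : ℤ) + 1 := by exact_mod_cast hp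
      exact this.trans h
    have := G_dvd R (Nat.succ_ne_zero m) dvd_rfl h1
    exact absurd hG (not_lt.2 this)
  set y := mixT x i₀ m with hy
  obtain ⟨z, D, hz, hD0, hyz, hDg⟩ := prim (by omega : 2 ≤ n + 1) (mix_sum hx i₀ m)
    (fun J hJ hJ2 => mix_sub hx i₀ hnd J hJ hJ2)
  replace hyz : ∀ i, y i = D * z i := hyz
  set d : ℕ := D.natAbs with hd
  have hd0 : 0 < d := Int.natAbs_pos.2 hD0
  -- the divisor
  have y0 : y 0 = x i₀ := by simp [hy, mixT]
  have ys : ∀ i : Fin n, y i.succ = if i = i₀ then (m : ℤ) * x i₀ else ((m : ℤ) + 1) * x i := by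
    intro i; simp [hy, mixT]
  have hDy : ∀ i, D ∣ y i := fun i => ⟨z i, hyz i⟩
  have hDx : D ∣ x i₀ := by rw [← y0]; exact hDy 0
  have hDm : D ∣ (m : ℤ) + 1 := by
    have h1 : ∀ i, D ∣ ((m : ℤ) + 1) * x i := by
      intro i
      by_cases h : i = i₀
      · rw [h]; exact hDx.mul_left _
      · have := hDy i.succ
        rwa [ys, if_neg h] at this
    have h2 : D ∣ univ.gcd fun i => ((m : ℤ) + 1) * x i := Finset.dvd_gcd fun i _ => h1 i
    rw [Finset.gcd_mul_left, hx.1, mul_one] at h2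
    exact h2.trans (normalize_dvd_iff.2 dvd_rfl)
  have hdm : d ∣ m + 1 := by
    have h1 := Int.natAbs_dvd_natAbs.2 hDm
    have h2 : ((m : ℤ) + 1).natAbs = m + 1 := by
      have : ((m : ℤ) + 1) = ((m + 1 : ℕ) : ℤ) := by push_cast; ring
      rw [this, Int.natAbs_natCast]
    rwa [h2] at h1
  have hdR : ∀ p : ℕ, p.Prime → p ∣ d → p ∣ R := by
    intro p _ hp
    exact hxR p i₀ ((Int.natCast_dvd.2 hp).trans hDx)
  have hlogd : Real.log d ≤ G R (m + 1) := G_dvd R (Nat.succ_ne_zero m) hdm hdR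
  have hlogd0 : 0 ≤ Real.log (d : ℝ) := Real.log_natCast_nonneg _
  -- sizes
  have hsx : 0 < sz x := sz_pos hn hx
  have hsz : 0 < sz z := sz_pos (by omega) hz
  have hyabs : ∀ i, (y i).natAbs = d * (z i).natAbs := by
    intro i; rw [hyz i, Int.natAbs_mul]
  have hm1 : ((m : ℤ) + 1).natAbs = m + 1 := by
    have : ((m : ℤ) + 1) = ((m + 1 : ℕ) : ℤ) := by push_cast; ring
    rw [this, Int.natAbs_natCast]
  have hle1 : ∀ i, (y i).natAbs ≤ (m + 1) * sz x := by
    intro i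
    refine Fin.cases ?_ (fun i => ?_) i
    · rw [y0]
      exact (le_sz x i₀).trans (Nat.le_mul_of_pos_left _ (by omega))
    · rw [ys]
      split_ifs
      · rw [Int.natAbs_mul, Int.natAbs_natCast]
        exact Nat.mul_le_mul (by omega) (le_sz x i₀)
      · rw [Int.natAbs_mul, hm1]
        exact Nat.mul_le_mul_left _ (le_sz x i)
  have hup : sz z ≤ (m + 1) * sz x := by
    refine Finset.sup_le fun i _ => ?_
    have := hle1 i
    rw [hyabs] at this
    exact (Nat.le_mul_of_pos_left _ hd0).trans this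
  have hlo : (m + 1) * sz x ≤ n * (d * sz z) := by
    have h1 : ∀ i : Fin n, i ≠ i₀ → (m + 1) * (x i).natAbs ≤ d * sz z := by
      intro i hi
      have h2 := hyabs i.succ
      rw [ys, if_neg hi, Int.natAbs_mul, hm1] at h2
      rw [h2]
      exact Nat.mul_le_mul_left _ (le_sz z _)
    have h2 : (m + 1) * (x i₀).natAbs ≤ n * (d * sz z) := by
      have h3 : x i₀ = -∑ i ∈ univ.erase i₀, x i := by
        have := hx.2.1
        rw [← add_sum_erase univ x (mem_univ i₀)] at this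
        linarith
      have h4 : (x i₀).natAbs ≤ ∑ i ∈ univ.erase i₀, (x i).natAbs := by
        rw [h3, Int.natAbs_neg]
        exact Int.natAbs_sum_le _ _
      calc (m + 1) * (x i₀).natAbs ≤ (m + 1) * ∑ i ∈ univ.erase i₀, (x i).natAbs :=
            Nat.mul_le_mul_left _ h4
        _ = ∑ i ∈ univ.erase i₀, (m + 1) * (x i).natAbs := by rw [mul_sum]
        _ ≤ ∑ _i ∈ univ.erase i₀, d * sz z := sum_le_sum fun i hi => h1 i (ne_of_mem_erase hi)
        _ = (univ.erase i₀).card * (d * sz z) := by rw [sum_const, smul_eq_mul]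
        _ ≤ n * (d * sz z) := by
            apply Nat.mul_le_mul_right
            have := Finset.card_le_univ (univ.erase i₀)
            rwa [Fintype.card_fin] at this
    obtain ⟨i, -, hi⟩ := Finset.exists_mem_eq_sup univ ⟨i₀, mem_univ _⟩ fun i => (x i).natAbs
    have hi' : sz x = (x i).natAbs := hi
    rw [hi']
    by_cases h : i = i₀
    · rw [h]; exact h2
    · exact (h1 i h).trans (Nat.le_mul_of_pos_left _ (by omega))
  -- the radicals
  have hzd : ∀ (p : ℕ), p.Prime → p ∣ (∏ i, z i).natAbs → p ∣ (∏ i, y i).natAbs := by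
    intro p _ h
    have h1 := Int.natCast_dvd.2 h
    apply Int.natCast_dvd.1
    refine h1.trans (prod_dvd_prod_of_dvd _ _ fun i _ => ⟨D, ?_⟩)
    rw [hyz i]; ring
  have hy0 : (∏ i, y i).natAbs ≠ 0 := by
    rw [Int.natAbs_ne_zero]
    refine prod_ne_zero_iff.2 fun i _ => ?_
    rw [hyz i]
    exact mul_ne_zero hD0 (hz.ne_zero (by omega) i)
  have hsub : (∏ i, z i).natAbs.primeFactors ⊆ (∏ i, y i).natAbs.primeFactors := by
    intro p hp
    rw [Nat.mem_primeFactors] at hp ⊢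
    exact ⟨hp.1, hzd p hp.1 hp.2.1, hy0⟩
  -- the primes of `y`
  have hyP : (∏ i, y i).natAbs.primeFactors =
      R.primeFactors ∪ (m.primeFactors.filter (fun p => ¬ p ∣ R) ∪
        (m + 1).primeFactors.filter (fun p => ¬ p ∣ R)) := by
    ext p
    simp only [mem_union, mem_filter, Nat.mem_primeFactors]
    constructor
    · rintro ⟨hp, h, -⟩
      by_cases hpR : p ∣ R
      · exact Or.inl ⟨hp, hpR, hR0⟩
      · right
        have h2 : (p : ℤ) ∣ ∏ i, y i := Int.natCast_dvd.2 h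
        obtain ⟨i, -, hi⟩ := (Prime.dvd_finsetProd_iff (Nat.prime_iff_prime_int.1 hp) _).1 h2
        rcases Fin.eq_zero_or_eq_succ i with rfl | ⟨i, rfl⟩
        · rw [y0] at hi
          exact absurd (hxR p i₀ hi) hpR
        · rw [ys] at hi
          split_ifs at hi
          · rcases (Nat.prime_iff_prime_int.1 hp).dvd_or_dvd hi with h3 | h3
            · left
              exact ⟨⟨hp, by exact_mod_cast h3, by omega⟩, hpR⟩
            · exact absurd (hxR p i₀ h3) hpR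
          · rcases (Nat.prime_iff_prime_int.1 hp).dvd_or_dvd hi with h3 | h3
            · right
              exact ⟨⟨hp, by exact_mod_cast h3, by omega⟩, hpR⟩
            · exact absurd (hxR p i h3) hpR
    · have hdv : ∀ i, (p : ℤ) ∣ y i → p ∣ (∏ i, y i).natAbs := fun i h =>
        Int.natCast_dvd.1 (h.trans (dvd_prod_of_mem _ (mem_univ i)))
      rintro (⟨hp, h, -⟩ | ⟨⟨hp, h, -⟩, -⟩ | ⟨⟨hp, h, -⟩, -⟩)
      · have h2 : (p : ℤ) ∣ ∏ i, x i := Int.natCast_dvd.2 h
        obtain ⟨i, -, hi⟩ := (Prime.dvd_finsetProd_iff (Nat.prime_iff_prime_int.1 hp) _).1 h2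
        refine ⟨hp, ?_, hy0⟩
        by_cases hii : i = i₀
        · apply hdv 0
          rw [y0, ← hii]; exact hi
        · apply hdv i.succ
          rw [ys, if_neg hii]
          exact hi.mul_left _
      · refine ⟨hp, hdv i₀.succ ?_, hy0⟩
        rw [ys, if_pos rfl]
        have : (p : ℤ) ∣ (m : ℤ) := by exact_mod_cast h
        exact this.mul_right _
      · refine ⟨hp, hdv i₁.succ ?_, hy0⟩
        rw [ys, if_neg h01]
        have : (p : ℤ) ∣ (m : ℤ) + 1 := by exact_mod_cast h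
        exact this.mul_right _
  have hLRy : LR y = LR x + newlog R m + newlog R (m + 1) := by
    rw [LR_eq, LR_eq, hyP, ← hR, sum_union, sum_union]
    · unfold newlog; ring
    · rw [disjoint_left]
      intro p h1 h2
      rw [mem_filter, Nat.mem_primeFactors] at h1 h2
      have h3 := Nat.dvd_sub h2.1.2.1 h1.1.2.1
      rw [Nat.add_sub_cancel_left] at h3
      exact h1.1.1.one_lt.ne' (Nat.dvd_one.1 h3)
    · rw [disjoint_left]
      intro p h1 h2
      rw [Nat.mem_primeFactors] at h1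
      rw [mem_union, mem_filter, mem_filter] at h2
      rcases h2 with h2 | h2
      · exact h2.2 h1.2.1
      · exact h2.2 h1.2.1
  have hLRz : LR z ≤ LR y := by
    rw [LR_eq, LR_eq]
    exact sum_le_sum_of_subset_of_nonneg hsub fun p _ _ => Real.log_natCast_nonneg _
  have hLRz2 : LR y ≤ LR z + Real.log d := by
    have h1 := rd_le y (a := (∏ i, z i).natAbs) (b := d)
      (Int.natAbs_ne_zero.2 (prod_ne_zero_iff.2 fun i _ => hz.ne_zero (by omega) i)) hd0.ne'
      (fun i p hp hpd => by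
        rw [hyz i] at hpd
        rcases (Nat.prime_iff_prime_int.1 hp).dvd_or_dvd hpd with h3 | h3
        · exact Or.inr (Int.natCast_dvd.1 h3)
        · exact Or.inl (Int.natCast_dvd.1 (h3.trans (dvd_prod_of_mem _ (mem_univ i)))))
    have h2 : rd y ≤ rd z * d := h1
    have h3 : (0 : ℝ) < rd y := by exact_mod_cast rd_pos y
    have h4 : (0 : ℝ) < rd z := by exact_mod_cast rd_pos z
    have h5 : (0 : ℝ) < d := by exact_mod_cast hd0
    unfold LR
    rw [← Real.log_mul h4.ne' h5.ne']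
    exact Real.log_le_log h3 (by exact_mod_cast h2)
  have hn1 := newlog_eq R m
  have hn2 := newlog_eq R (m + 1)
  have hg1 := G_nonneg R m
  have hg2 := G_nonneg R (m + 1)
  have e1 : (0 : ℝ) < sz x := by exact_mod_cast hsx
  have e2 : (0 : ℝ) < sz z := by exact_mod_cast hsz
  have e3 : (0 : ℝ) < ((m + 1 : ℕ) : ℝ) := by positivity
  have e4 : (0 : ℝ) < n := by exact_mod_cast (by omega : 0 < n)
  have e5 : (0 : ℝ) < d := by exact_mod_cast hd0
  refine ⟨z, hz, ?_, ?_, ?_, ?_⟩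
  · have h1 : Real.log (((m + 1 : ℕ) : ℝ) * sz x) ≤ Real.log ((n : ℝ) * (d * sz z)) := by
      apply Real.log_le_log (by positivity)
      exact_mod_cast hlo
    rw [Real.log_mul e3.ne' e1.ne', Real.log_mul e4.ne' (by positivity),
      Real.log_mul e5.ne' e2.ne'] at h1
    unfold LH
    linarith
  · have h1 : Real.log (sz z) ≤ Real.log (((m + 1 : ℕ) : ℝ) * sz x) := by
      apply Real.log_le_log e2
      exact_mod_cast hup
    rw [Real.log_mul e3.ne' e1.ne'] at h1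
    unfold LH
    linarith
  · linarith
  · linarith

end Pool.Agent.H584.NT
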