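import Pool.Agent.H584.NT.Mix

set_option autoImplicit false

/-!
# Limit points of the exponents of admissible tuples
-/

namespace Pool.Agent.H584.NT

open Finset Pool.Agent.Q39.NT

lemma LR_pos {n : ℕ} (hn : 3 ≤ n) {x : Fin n → ℤ} (hx : Adm x) : 0 < LR x := by
  have h := two_le_rd hn hx
  have : (1 : ℝ) < rd x := by exact_mod_cast (by omega : 1 < rd x)
  exact Real.log_pos this

theorem mix_limit {n : ℕ} (hn : 2 ≤ n) {lam : ℝ} (hl : 0 < lam) (hl2 : 2 * lam - 1 ≠ 0)
    {η ε : ℝ} (hη : 0 < η) (hε : 0 < ε) (N : ℝ) :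
    ∃ N' : ℝ, ∀ x : Fin n → ℤ, Adm x → N' < LH x →
      η * (LH x + LR x) ≤ (LH x - lam * LR x) / (2 * lam - 1) →
      ∃ z : Fin (n + 1) → ℤ, Adm z ∧ N < LH z ∧ |LH z - lam * LR z| ≤ ε * LR z := by
  obtain ⟨e1, he0, he1, he2, he3, he4⟩ : ∃ e1 : ℝ, 0 < e1 ∧ e1 ≤ 1 / 4 ∧ e1 ≤ η / 2 ∧
      (1 + 2 * lam) * e1 ≤ ε / 2 ∧ e1 ≤ η := by
    refine ⟨min (1 / 4) (min (η / 2) (ε / 2 / (1 + 2 * lam))), ?_, min_le_left _ _,
      (min_le_right _ _).trans (min_le_left _ _), ?_,
      ((min_le_right _ _).trans (min_le_left _ _)).trans (by linarith)⟩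
    · refine lt_min (by norm_num) (lt_min (by positivity) (by positivity))
    · have h1 : min (1 / 4) (min (η / 2) (ε / 2 / (1 + 2 * lam))) ≤ ε / 2 / (1 + 2 * lam) :=
        (min_le_right _ _).trans (min_le_right _ _)
      have h2 : 0 < 1 + 2 * lam := by positivity
      calc (1 + 2 * lam) * min (1 / 4) (min (η / 2) (ε / 2 / (1 + 2 * lam)))
          ≤ (1 + 2 * lam) * (ε / 2 / (1 + 2 * lam)) := mul_le_mul_of_nonneg_left h1 h2.le
        _ = ε / 2 := by field_simp
  obtain ⟨C, hC0, hC⟩ := exists_pair he0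
  set K : ℝ := Real.log 6 + Real.log n + 2 * lam * Real.log 6 with hK
  set K' : ℝ := K + (1 + 2 * lam) * C + 2 * ε * C with hK'
  refine ⟨max (max 1 ((C + 1) / η)) (max (K' / (2 * ε * η)) (N + Real.log n + C)), ?_⟩
  intro x hx hN hT
  have hN1 : 1 < LH x := lt_of_le_of_lt ((le_max_left _ _).trans (le_max_left _ _)) hN
  have hN2 : (C + 1) / η < LH x := lt_of_le_of_lt ((le_max_right _ _).trans (le_max_left _ _)) hN
  have hN3 : K' / (2 * ε * η) < LH x :=
    lt_of_le_of_lt ((le_max_left _ _).trans (le_max_right _ _)) hN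
  have hN4 : N + Real.log n + C < LH x :=
    lt_of_le_of_lt ((le_max_right _ _).trans (le_max_right _ _)) hN
  rw [div_lt_iff₀ hη] at hN2
  rw [div_lt_iff₀ (by positivity)] at hN3
  set h := LH x with hh
  set r := LR x with hr
  have hr0 : 0 ≤ r := LR_nonneg x
  set T : ℝ := (h - lam * r) / (2 * lam - 1) with hTdef
  have hTeq : (h + T) - lam * (r + 2 * T) = 0 := by
    have h1 : T * (2 * lam - 1) = h - lam * r := by rw [hTdef, div_mul_cancel₀ _ hl2]
    linarith
  have hT0 : 0 ≤ T := le_trans (by positivity) hT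
  set W : ℕ := ⌈Real.exp T⌉₊ with hW
  have hW0 : 0 < W := Nat.ceil_pos.2 (Real.exp_pos _)
  have hWl : Real.exp T ≤ W := Nat.le_ceil _
  have hWu : (W : ℝ) ≤ 2 * Real.exp T := by
    have h1 := (Nat.ceil_lt_add_one (Real.exp_pos T).le)
    have h2 : 1 ≤ Real.exp T := Real.one_le_exp hT0
    rw [← hW] at h1
    linarith
  have hR0 : (∏ i, x i).natAbs ≠ 0 :=
    Int.natAbs_ne_zero.2 (prod_ne_zero_iff.2 fun i _ => hx.ne_zero hn i)
  obtain ⟨m, hm1, hm2, hm3⟩ := hC _ hR0 W hW0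
  rw [← LR_eq] at hm3
  set L : ℝ := C + e1 * r with hL
  have hL0 : 0 ≤ L := by positivity
  have hg1 := G_nonneg (∏ i, x i).natAbs m
  have hg2 := G_nonneg (∏ i, x i).natAbs (m + 1)
  have hm0 : 0 < m := by omega
  have hlm : T ≤ Real.log m := by
    rw [Real.le_log_iff_exp_le (by exact_mod_cast hm0)]
    exact hWl.trans (by exact_mod_cast hm1.le)
  have hlm1 : T ≤ Real.log ((m + 1 : ℕ) : ℝ) := by
    refine hlm.trans (Real.log_le_log (by exact_mod_cast hm0) ?_)
    push_cast; linarith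
  have hlm2 : Real.log ((m + 1 : ℕ) : ℝ) ≤ T + Real.log 6 := by
    rw [← Real.log_exp T, ← Real.log_mul (Real.exp_pos _).ne' (by norm_num)]
    apply Real.log_le_log (by positivity)
    have h1 : ((m + 1 : ℕ) : ℝ) ≤ 3 * W := by
      exact_mod_cast (by omega : m + 1 ≤ 3 * W)
    linarith
  have hlm3 : Real.log m ≤ T + Real.log 6 := by
    refine le_trans (Real.log_le_log (by exact_mod_cast hm0) ?_) hlm2
    push_cast; linarith
  have hLT : L < T := by
    have h1 : η * (h + r) ≤ T := hT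
    have h2 : e1 * r ≤ η * r := mul_le_mul_of_nonneg_right he4 hr0
    nlinarith
  have hG : G (∏ i, x i).natAbs (m + 1) < Real.log ((m + 1 : ℕ) : ℝ) := by linarith
  obtain ⟨z, hz, z1, z2, z3, z4⟩ := mix hn hx hm0 hG
  rw [← hh] at z1 z2
  rw [← hr] at z3 z4
  have hl6 : 0 < Real.log 6 := Real.log_pos (by norm_num)
  have hln : 0 ≤ Real.log (n : ℝ) := Real.log_natCast_nonneg _
  have a1 : h + T - Real.log n - L ≤ LH z := by linarith
  have a2 : LH z ≤ h + T + Real.log 6 := by linarith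
  have a3 : r + 2 * T - 2 * L ≤ LR z := by linarith
  have a4 : LR z ≤ r + 2 * T + 2 * Real.log 6 := by linarith
  have b1 : LH z - lam * LR z ≤ Real.log 6 + 2 * lam * L := by
    have := mul_le_mul_of_nonneg_left a3 hl.le
    nlinarith
  have b2 : -(Real.log n + L + 2 * lam * Real.log 6) ≤ LH z - lam * LR z := by
    have := mul_le_mul_of_nonneg_left a4 hl.le
    nlinarith
  have b3 : |LH z - lam * LR z| ≤ K + (1 + 2 * lam) * L := by
    rw [abs_le]
    have h1 : 0 ≤ lam * L := by positivity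
    have h2 : 0 ≤ lam * Real.log 6 := by positivity
    constructor
    · rw [hK]; nlinarith
    · rw [hK]; nlinarith
  refine ⟨z, hz, ?_, b3.trans ?_⟩
  · have h1 : η * (h + r) ≤ T := hT
    have h2 : e1 * r ≤ η * r := mul_le_mul_of_nonneg_right he4 hr0
    nlinarith
  · have c1 : (1 - 2 * e1) * r + 2 * η * h - 2 * C ≤ LR z := by
      have h1 : η * (h + r) ≤ T := hT
      have h2 : 0 ≤ η * r := by positivity
      rw [hL] at a3
      nlinarith
    have c2 := mul_le_mul_of_nonneg_left c1 hε.le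
    have c3 : (1 + 2 * lam) * L = (1 + 2 * lam) * C + ((1 + 2 * lam) * e1) * r := by
      rw [hL]; ring
    have c4 : ((1 + 2 * lam) * e1) * r ≤ ε / 2 * r := mul_le_mul_of_nonneg_right he3 hr0
    have c5 : 1 / 2 * r ≤ (1 - 2 * e1) * r := mul_le_mul_of_nonneg_right (by linarith) hr0
    have c6 : ε * (1 / 2 * r) ≤ ε * ((1 - 2 * e1) * r) := mul_le_mul_of_nonneg_left c5 hε.le
    rw [c3]
    nlinarith

/-- `lam` is a limit of the exponents `log max |x_i| / log rad (x_1 ⋯ x_n)` of admissible tuples -/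
def IsLim (n : ℕ) (lam : ℝ) : Prop :=
  ∀ ε : ℝ, 0 < ε → ∀ N : ℝ, ∃ x : Fin n → ℤ, Adm x ∧ N < sz x ∧
    |Real.log (sz x) / Real.log (rd x) - lam| < ε

lemma isLim_of {n : ℕ} (hn : 3 ≤ n) {lam : ℝ} (h : ∀ ε : ℝ, 0 < ε → ∀ N : ℝ, ∃ x : Fin n → ℤ,
    Adm x ∧ N < LH x ∧ |LH x - lam * LR x| ≤ ε * LR x) : IsLim n lam := by
  intro ε hε N
  obtain ⟨x, hx, hN, hq⟩ := h (ε / 2) (by positivity) N
  have hr := LR_pos hn hx
  refine ⟨x, hx, ?_, ?_⟩
  · have h1 : (0 : ℝ) < sz x := by exact_mod_cast sz_pos (by omega) hx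
    have h2 := Real.add_one_le_exp (LH x)
    have h3 : Real.exp (LH x) = sz x := Real.exp_log h1
    linarith
  · have h1 : Real.log (sz x) / Real.log (rd x) - lam = (LH x - lam * LR x) / LR x := by
      unfold LH LR at *
      field_simp
    rw [h1, abs_div, abs_of_pos hr, div_lt_iff₀ hr]
    nlinarith

lemma IsLim.closed {n : ℕ} {lam : ℝ} (h : ∀ δ : ℝ, 0 < δ → ∃ mu : ℝ, |mu - lam| < δ ∧ IsLim n mu) :
    IsLim n lam := by
  intro ε hε N
  obtain ⟨mu, h1, h2⟩ := h (ε / 2) (by positivity)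
  obtain ⟨x, hx, hN, hq⟩ := h2 (ε / 2) (by positivity) N
  refine ⟨x, hx, hN, ?_⟩
  have h3 := abs_add_le (Real.log (sz x) / Real.log (rd x) - mu) (mu - lam)
  have h4 : Real.log (sz x) / Real.log (rd x) - mu + (mu - lam) =
      Real.log (sz x) / Real.log (rd x) - lam := by ring
  rw [h4] at h3
  linarith

/-- the interval closure -/
lemma IsLim.Icc {n : ℕ} {a b : ℝ} (hab : a < b) (h : ∀ mu : ℝ, a < mu → mu < b → IsLim n mu) :
    ∀ mu : ℝ, a ≤ mu → mu ≤ b → IsLim n mu := by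
  intro mu h1 h2
  refine IsLim.closed fun δ hδ => ?_
  rcases h1.eq_or_lt with h3 | h3
  · refine ⟨min ((a + b) / 2) (a + δ / 2), ?_, h _ (lt_min (by linarith) (by linarith))
      (lt_of_le_of_lt (min_le_left _ _) (by linarith))⟩
    have h4 : a < min ((a + b) / 2) (a + δ / 2) := lt_min (by linarith) (by linarith)
    have h5 := min_le_right ((a + b) / 2) (a + δ / 2)
    rw [← h3, abs_of_pos (by linarith)]
    linarith
  · refine ⟨max ((a + mu) / 2) (mu - δ / 2), ?_, h _ (lt_of_lt_of_le (by linarith)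
      (le_max_left _ _)) (lt_of_lt_of_le (max_lt (by linarith) (by linarith)) h2)⟩
    have h4 : max ((a + mu) / 2) (mu - δ / 2) < mu := max_lt (by linarith) (by linarith)
    have h5 := le_max_right ((a + mu) / 2) (mu - δ / 2)
    rw [abs_of_neg (by linarith)]
    linarith

lemma key_id (a A B H : ℝ) (hA : A ≠ 0) (hB : B ≠ 0) : a / (A * B) * (H * B) * A = H * a := by
  field_simp

/-- **From large exponents for `n` to all exponents in between for `n + 1`.** -/
theorem spec_up {n : ℕ} (hn : 3 ≤ n) {q : ℝ} (hq : 1 / 2 < q)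
    (H : ∀ N : ℝ, ∃ x : Fin n → ℤ, Adm x ∧ N < LH x ∧ q * LR x ≤ LH x) :
    ∀ lam : ℝ, 1 / 2 ≤ lam → lam ≤ q → IsLim (n + 1) lam := by
  refine IsLim.Icc hq fun lam h1 h2 => isLim_of (by omega) fun ε hε N => ?_
  have hq0 : 0 < q := by linarith
  have hd : 0 < 2 * lam - 1 := by linarith
  have hd2 : 0 < 1 - lam / q := by rw [sub_pos, div_lt_one hq0]; exact h2
  obtain ⟨N', hN'⟩ := mix_limit (n := n) (by omega) (show 0 < lam by linarith) hd.ne'
    (show 0 < (1 - lam / q) / ((2 * lam - 1) * (1 + 1 / q)) by positivity) hε N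
  obtain ⟨x, hx, hx1, hx2⟩ := H (max N' 0)
  have hx0 : 0 < LH x := lt_of_le_of_lt (le_max_right _ _) hx1
  refine hN' x hx (lt_of_le_of_lt (le_max_left _ _) hx1) ?_
  have hr : LR x ≤ LH x / q := by rw [le_div_iff₀ hq0]; linarith
  have k1 : LH x * (1 - lam / q) ≤ LH x - lam * LR x := by
    have h3 : lam * LR x ≤ lam * (LH x / q) := mul_le_mul_of_nonneg_left hr (by linarith)
    calc LH x * (1 - lam / q) = LH x - lam * (LH x / q) := by ring
      _ ≤ _ := by linarith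
  have k2 : LH x + LR x ≤ LH x * (1 + 1 / q) := by
    calc LH x + LR x ≤ LH x + LH x / q := by linarith
      _ = _ := by ring
  rw [le_div_iff₀ hd]
  calc (1 - lam / q) / ((2 * lam - 1) * (1 + 1 / q)) * (LH x + LR x) * (2 * lam - 1)
      ≤ (1 - lam / q) / ((2 * lam - 1) * (1 + 1 / q)) * (LH x * (1 + 1 / q)) * (2 * lam - 1) := by
        gcongr
    _ = LH x * (1 - lam / q) := key_id _ _ _ _ hd.ne' (by positivity)
    _ ≤ _ := k1

/-- **From small exponents for `n` to all exponents in between for `n + 1`.** -/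
theorem spec_down {n : ℕ} (hn : 3 ≤ n) {p : ℝ} (hp0 : 0 < p) (hp : p < 1 / 2)
    (H : ∀ q : ℝ, p < q → ∀ N : ℝ, ∃ x : Fin n → ℤ, Adm x ∧ N < LH x ∧ LH x ≤ q * LR x) :
    ∀ lam : ℝ, p ≤ lam → lam ≤ 1 / 2 → IsLim (n + 1) lam := by
  refine IsLim.Icc hp fun lam h1 h2 => isLim_of (by omega) fun ε hε N => ?_
  have hl0 : 0 < lam := by linarith
  have hd : 0 < 1 - 2 * lam := by linarith
  obtain ⟨q, hq1, hq2⟩ : ∃ q, p < q ∧ q < lam := exists_between h1
  have hq0 : 0 < q := by linarith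
  obtain ⟨N', hN'⟩ := mix_limit (n := n) (by omega) hl0 (show 2 * lam - 1 ≠ 0 by linarith)
    (show 0 < (lam - q) / ((1 - 2 * lam) * (1 + q)) by
      have : 0 < lam - q := by linarith
      positivity) hε N
  obtain ⟨x, hx, hx1, hx2⟩ := H q hq1 N'
  refine hN' x hx hx1 ?_
  have hr := LR_nonneg x
  have e : (LH x - lam * LR x) / (2 * lam - 1) = (lam * LR x - LH x) / (1 - 2 * lam) := by
    rw [div_eq_div_iff (by linarith) hd.ne']; ring
  rw [e, le_div_iff₀ hd]
  have h3 : 0 < lam - q := by linarith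
  calc (lam - q) / ((1 - 2 * lam) * (1 + q)) * (LH x + LR x) * (1 - 2 * lam)
      ≤ (lam - q) / ((1 - 2 * lam) * (1 + q)) * ((1 + q) * LR x) * (1 - 2 * lam) := by
        gcongr
        linarith
    _ = (lam - q) * LR x := by
        rw [mul_comm (1 + q) (LR x), key_id _ _ _ _ hd.ne' (by positivity), mul_comm]
    _ ≤ _ := by linarith

end Pool.Agent.H584.NT
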